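import Pool.Agent.H30.SB.Brd

/-!
# SB.Boot : the scalar equation has a solution, given the quadratic approximation `TB` of the
moment of mode `478` (the latter is block 6b, helper11)
-/

set_option autoImplicit false

namespace Pool.Agent.H30.SB

open Pool.Agent.H68.SC (jl djl)
open Pool.Agent.H27.Leg (P c)
open Set SF

/-- the hypotheses on one boundary function -/
structure One (a : ℕ → ℝ) (E : ℝ) : Prop where
  mem : E ∈ IE
  summ : Summable fun k => |a k|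
  odd : ∀ k, Odd k → a k = 0
  amp : a ell = E
  near : ∑' k, (if k = ell then 0 else |a k|) ≤ 2000 * E ^ 2
  high : ∑' k, |a (k + 1212)| ≤ 50 * E ^ 2
  mom : ∀ k, Even k → k ≠ ell → k ≤ 1210 → Mom k a = 0

/-- the quadratic approximation -/
def TB (a : ℕ → ℝ) (E : ℝ) : Prop :=
  |957 / 2 * Mom ell a - rho ^ 2 * djl ell rho * (jl ell rho / djl ell rho * E + c ell ell ell / 2 * E ^ 2)| ≤
    rho ^ 2 * |djl ell rho| * (5 / 20000 * E ^ 2)

theorem IE_bd {E : ℝ} (h : E ∈ IE) : 5 / 10 ^ 5 ≤ E ∧ E ≤ 16 / 10 ^ 5 := h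

theorem abs_split {a : ℕ → ℝ} (ha : Summable fun k => |a k|) :
    ∑' k, |a k| = |a ell| + ∑' k, (if k = ell then 0 else |a k|) := by
  rw [ha.tsum_eq_add_tsum_ite ell]

theorem One.total {a : ℕ → ℝ} {E : ℝ} (h : One a E) : ∑' k, |a k| ≤ E + 2000 * E ^ 2 := by
  have hE := IE_bd h.mem
  rw [abs_split h.summ, h.amp, abs_of_nonneg (by linarith [hE.1])]
  linarith [h.near]

theorem One.small {a : ℕ → ℝ} {E : ℝ} (h : One a E) : ∑' k, |a k| ≤ 3 / 10 ^ 4 := by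
  have hE := IE_bd h.mem
  refine h.total.trans ?_
  nlinarith [hE.1, hE.2]

theorem One.one {a : ℕ → ℝ} {E : ℝ} (h : One a E) : ∑' k, |a k| ≤ 1 :=
  h.small.trans (by norm_num)

theorem D_neg_bound : jl ell rho / djl ell rho < -(80412 / 10 ^ 12) ∧
    -(80414 / 10 ^ 12) < jl ell rho / djl ell rho := ⟨D_lt, D_gt⟩

/-- the sign of the moment (relative to `j_l'(rho)`) is that of the main term -/
theorem sign_left {a : ℕ → ℝ} (h : One a E1) (hT : TB a E1) : Mom ell a * djl ell rho < 0 := by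
  have hd := djl_ell_ne
  have hr : (0 : ℝ) < rho ^ 2 := by
    have : (0 : ℝ) < rho := SN.rho_pos
    positivity
  have hd2 : 0 < djl ell rho ^ 2 := by positivity
  obtain ⟨D1, D2⟩ := D_neg_bound
  have g1 := g_gt
  have g2 := g_lt
  unfold TB at hT
  set D := jl ell rho / djl ell rho
  set g := c ell ell ell
  set d := djl ell rho
  set m := Mom ell a
  have hE : (E1 : ℝ) = 5 / 10 ^ 5 := rfl
  rw [hE] at hT
  -- multiply by `|d|`
  have h1 : |957 / 2 * (m * d) - rho ^ 2 * d ^ 2 * (D * (5 / 10 ^ 5) + g / 2 * (5 / 10 ^ 5) ^ 2)| ≤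
      rho ^ 2 * d ^ 2 * (5 / 20000 * (5 / 10 ^ 5) ^ 2) := by
    have e1 : 957 / 2 * (m * d) - rho ^ 2 * d ^ 2 * (D * (5 / 10 ^ 5) + g / 2 * (5 / 10 ^ 5) ^ 2) =
        (957 / 2 * m - rho ^ 2 * d * (D * (5 / 10 ^ 5) + g / 2 * (5 / 10 ^ 5) ^ 2)) * d := by ring
    rw [e1, abs_mul]
    have e2 : rho ^ 2 * d ^ 2 * (5 / 20000 * (5 / 10 ^ 5) ^ 2) =
        rho ^ 2 * |d| * (5 / 20000 * (5 / 10 ^ 5) ^ 2) * |d| := by
      rw [← sq_abs d]
      ring
    rw [e2]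
    exact mul_le_mul_of_nonneg_right hT (abs_nonneg _)
  have h2 := (abs_le.1 h1).2
  have h3 : 0 < rho ^ 2 * d ^ 2 := by positivity
  have h4 : D * (5 / 10 ^ 5) + g / 2 * (5 / 10 ^ 5) ^ 2 + 5 / 20000 * (5 / 10 ^ 5) ^ 2 < 0 := by
    norm_num at D1 g2 ⊢
    linarith
  have h5 : 957 / 2 * (m * d) ≤ rho ^ 2 * d ^ 2 *
      (D * (5 / 10 ^ 5) + g / 2 * (5 / 10 ^ 5) ^ 2 + 5 / 20000 * (5 / 10 ^ 5) ^ 2) := by linarith
  have h6 := mul_neg_of_pos_of_neg h3 h4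
  linarith

theorem sign_right {a : ℕ → ℝ} (h : One a E2) (hT : TB a E2) : 0 < Mom ell a * djl ell rho := by
  have hd := djl_ell_ne
  have hr : (0 : ℝ) < rho ^ 2 := by
    have : (0 : ℝ) < rho := SN.rho_pos
    positivity
  have hd2 : 0 < djl ell rho ^ 2 := by positivity
  obtain ⟨D1, D2⟩ := D_neg_bound
  have g1 := g_gt
  have g2 := g_lt
  unfold TB at hT
  set D := jl ell rho / djl ell rho
  set g := c ell ell ell
  set d := djl ell rho
  set m := Mom ell a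
  have hE : (E2 : ℝ) = 16 / 10 ^ 5 := rfl
  rw [hE] at hT
  have h1 : |957 / 2 * (m * d) - rho ^ 2 * d ^ 2 * (D * (16 / 10 ^ 5) + g / 2 * (16 / 10 ^ 5) ^ 2)| ≤
      rho ^ 2 * d ^ 2 * (5 / 20000 * (16 / 10 ^ 5) ^ 2) := by
    have e1 : 957 / 2 * (m * d) - rho ^ 2 * d ^ 2 * (D * (16 / 10 ^ 5) + g / 2 * (16 / 10 ^ 5) ^ 2) =
        (957 / 2 * m - rho ^ 2 * d * (D * (16 / 10 ^ 5) + g / 2 * (16 / 10 ^ 5) ^ 2)) * d := by ring
    rw [e1, abs_mul]
    have e2 : rho ^ 2 * d ^ 2 * (5 / 20000 * (16 / 10 ^ 5) ^ 2) =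
        rho ^ 2 * |d| * (5 / 20000 * (16 / 10 ^ 5) ^ 2) * |d| := by
      rw [← sq_abs d]
      ring
    rw [e2]
    exact mul_le_mul_of_nonneg_right hT (abs_nonneg _)
  have h2 := (abs_le.1 h1).1
  have h3 : 0 < rho ^ 2 * d ^ 2 := by positivity
  have h4 : 0 < D * (16 / 10 ^ 5) + g / 2 * (16 / 10 ^ 5) ^ 2 - 5 / 20000 * (16 / 10 ^ 5) ^ 2 := by
    norm_num at D2 g1 ⊢
    linarith
  have h5 : rho ^ 2 * d ^ 2 *
      (D * (16 / 10 ^ 5) + g / 2 * (16 / 10 ^ 5) ^ 2 - 5 / 20000 * (16 / 10 ^ 5) ^ 2) ≤ 957 / 2 * (m * d) := by linarith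
  have h6 := mul_pos h3 h4
  linarith

/-- the scalar equation, by the intermediate value theorem -/
theorem boot_of (T : ∀ (a : ℕ → ℝ) (E : ℝ), One a E → TB a E) {a : ℝ → ℕ → ℝ} (h : ∀ E ∈ IE, One (a E) E)
    (lip : ∃ C : ℝ, ∀ E ∈ IE, ∀ E' ∈ IE, ∑' k, |a E k - a E' k| ≤ C * |E - E'|) :
    ∃ E ∈ IE, Mom ell (a E) = 0 := by
  obtain ⟨C, hC⟩ := lip
  obtain ⟨C', hC', hL⟩ := Mom_lip ell
  have h12 : (E1 : ℝ) ≤ E2 := by
    unfold E1 E2
    norm_num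
  have hE1 : E1 ∈ IE := left_mem_Icc.2 h12
  have hE2 : E2 ∈ IE := right_mem_Icc.2 h12
  have hcont : ContinuousOn (fun E => Mom ell (a E) * djl ell rho) IE := by
    have hl : LipschitzOnWith (Real.toNNReal (C' * C)) (fun E => Mom ell (a E)) IE := by
      refine LipschitzOnWith.of_dist_le_mul fun E hE E' hE' => ?_
      rw [Real.dist_eq, Real.dist_eq]
      have h1 := hL (a E) (a E') (h E hE).summ (h E' hE').summ (h E hE).one (h E' hE').one
      have h2 := mul_le_mul_of_nonneg_left (hC E hE E' hE') hC'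
      have h3 : C' * C * |E - E'| ≤ (Real.toNNReal (C' * C) : ℝ) * |E - E'| :=
        mul_le_mul_of_nonneg_right (Real.le_coe_toNNReal _) (abs_nonneg _)
      linarith
    exact hl.continuousOn.mul continuousOn_const
  have h0 : (0 : ℝ) ∈ Icc (Mom ell (a E1) * djl ell rho) (Mom ell (a E2) * djl ell rho) :=
    ⟨(sign_left (h E1 hE1) (T _ _ (h E1 hE1))).le, (sign_right (h E2 hE2) (T _ _ (h E2 hE2))).le⟩
  obtain ⟨E, hE, hE0⟩ := intermediate_value_Icc h12 hcont h0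
  exact ⟨E, hE, (mul_eq_zero.1 hE0).resolve_right djl_ell_ne⟩

end Pool.Agent.H30.SB
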