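import Pool.Agent.H30.SB.Tay
import Pool.Agent.H94.SF.Num
import Pool.Agent.H27.Leg.Bd

/-!
# SB.Brd : bridge between `Ph` and `SF.Phi`, elementary facts on Legendre series on `[-1, 1]`,
continuity of the moment `Mom k (a E)` in the parameter
-/

set_option autoImplicit false

namespace Pool.Agent.H30.SB

open Pool.Agent.H68.SC (jl djl jl_deriv jl_ode jl_smooth djl_smooth)
open Pool.Agent.H27.Leg (P abs_le_one)
open SN (rho_gt rho_lt rho_pos)
open Set SF

/-- `SF.Ph` is the same function -/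
theorem Ph_eq (k : ℕ) (r : ℝ) : SF.Ph k r = Ph k r := rfl

/-- the sum of absolute values dominates the series on `[-1, 1]` -/
theorem summ_ev {a : ℕ → ℝ} (ha : Summable fun k => |a k|) {x : ℝ} (hx : |x| ≤ 1) :
    Summable fun k => a k * (P k).eval x := by
  refine Summable.of_norm_bounded ha fun k => ?_
  rw [Real.norm_eq_abs, abs_mul]
  exact mul_le_of_le_one_right (abs_nonneg _) (abs_le_one k hx)

theorem ev_le {a : ℕ → ℝ} (ha : Summable fun k => |a k|) {x : ℝ} (hx : |x| ≤ 1) :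
    |ev a x| ≤ ∑' k, |a k| := by
  unfold ev
  have h1 := summ_ev ha hx
  have h2 : Summable fun k => |a k * (P k).eval x| := h1.abs
  refine (norm_tsum_le_tsum_norm (f := fun k => a k * (P k).eval x) (by simpa using h2)).trans ?_
  refine Summable.tsum_le_tsum (fun k => ?_) (by simpa using h2) ha
  rw [Real.norm_eq_abs, abs_mul]
  exact mul_le_of_le_one_right (abs_nonneg _) (abs_le_one k hx)

theorem ev_sub_le {a b : ℕ → ℝ} (ha : Summable fun k => |a k|) (hb : Summable fun k => |b k|) {x : ℝ}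
    (hx : |x| ≤ 1) : |ev a x - ev b x| ≤ ∑' k, |a k - b k| := by
  have hab : Summable fun k => |a k - b k| := by
    refine Summable.of_norm_bounded (ha.add hb) fun k => ?_
    rw [Real.norm_eq_abs, abs_abs]
    exact abs_sub _ _
  have h := ev_le hab hx
  have he : ev (fun k => a k - b k) x = ev a x - ev b x := by
    unfold ev
    rw [← (summ_ev ha hx).tsum_sub (summ_ev hb hx)]
    refine tsum_congr fun k => ?_
    ring
  rwa [he] at h

theorem ev_cont {a : ℕ → ℝ} (ha : Summable fun k => |a k|) : ContinuousOn (ev a) (Icc (-1) 1) := by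
  unfold ev
  refine continuousOn_tsum (fun k => ((Polynomial.continuous _).const_mul _ |>.continuousOn)) ha ?_
  intro k x hx
  rw [Real.norm_eq_abs, abs_mul]
  exact mul_le_of_le_one_right (abs_nonneg _) (abs_le_one k (abs_le.2 hx))

/-- `|ev a x| ≤ 3 / 10^4` -/
theorem ev_small {a : ℕ → ℝ} {M : ℝ} (ha : Summable fun k => |a k|) (hM : ∑' k, |a k| ≤ M) {x : ℝ}
    (hx : |x| ≤ 1) : |ev a x| ≤ M := (ev_le ha hx).trans hM

/-- `Ph k` is Lipschitz near `rho` -/
theorem Ph_lip (k : ℕ) : ∃ C : ℝ, 0 ≤ C ∧ ∀ h h' : ℝ, |h| ≤ 1 → |h'| ≤ 1 →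
    |Ph k (rho + h) - Ph k (rho + h')| ≤ C * |h - h'| := by
  set I : Set ℝ := Icc (rho - 1) (rho + 1) with hI
  have h1 := rho_gt
  have hpos : ∀ t ∈ I, 0 < t := fun t ht => by
    have : (rho : ℝ) = SN.rho := rfl
    have h2 := ht.1
    linarith
  have hcont : ContinuousOn (fun t => |t ^ 2 * jl k t|) I :=
    ((continuousOn_id.pow 2).mul ((jl_smooth k).continuousOn.mono fun t ht => hpos t ht)).abs
  obtain ⟨t0, _, hmax⟩ := isCompact_Icc.exists_isMaxOn ⟨rho, by rw [mem_Icc]; constructor <;> linarith⟩ hcont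
  refine ⟨|t0 ^ 2 * jl k t0|, abs_nonneg _, fun h h' hh hh' => ?_⟩
  have hm : ∀ s : ℝ, |s| ≤ 1 → rho + s ∈ I := fun s hs => by
    have := abs_le.1 hs
    rw [hI, mem_Icc]
    constructor <;> linarith [this.1, this.2]
  have := (convex_Icc (rho - 1) (rho + 1)).norm_image_sub_le_of_norm_hasDerivWithin_le (f := Ph k)
    (f' := fun t => t ^ 2 * jl k t) (C := |t0 ^ 2 * jl k t0|)
    (fun s hs => (Ph_deriv k (hpos s hs)).hasDerivWithinAt) (fun s hs => hmax hs) (hm h' hh') (hm h hh)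
  rw [Real.norm_eq_abs, Real.norm_eq_abs] at this
  have he : rho + h - (rho + h') = h - h' := by ring
  rwa [he] at this

theorem Mom_eq (k : ℕ) (a : ℕ → ℝ) :
    Mom k a = ∫ x in (-1 : ℝ)..1, Ph k (rho + ev a x) * (P k).eval x := rfl

theorem Ph_ev_cont (k : ℕ) {a : ℕ → ℝ} (ha : Summable fun k => |a k|) (hM : ∑' k, |a k| ≤ 1) :
    ContinuousOn (fun x => Ph k (rho + ev a x)) (Icc (-1) 1) := by
  obtain ⟨C, hC, hL⟩ := Ph_lip k
  have h1 : ContinuousOn (Ph k) (Icc (rho - 1) (rho + 1)) := fun t ht => by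
    have h3 := rho_gt
    have : (rho : ℝ) = SN.rho := rfl
    exact (Ph_deriv k (by linarith [ht.1])).continuousAt.continuousWithinAt
  refine h1.comp (continuousOn_const.add (ev_cont ha)) ?_
  intro x hx
  have h1 := abs_le.1 (ev_small ha hM (abs_le.2 hx))
  rw [mem_Icc]
  constructor <;> linarith [h1.1, h1.2]

/-- the moment is Lipschitz in the coefficients -/
theorem Mom_lip (k : ℕ) : ∃ C : ℝ, 0 ≤ C ∧ ∀ a b : ℕ → ℝ, (Summable fun k => |a k|) → (Summable fun k => |b k|) →
    ∑' k, |a k| ≤ 1 → ∑' k, |b k| ≤ 1 → |Mom k a - Mom k b| ≤ C * ∑' k, |a k - b k| := by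
  obtain ⟨C, hC, hL⟩ := Ph_lip k
  refine ⟨2 * C, by linarith, fun a b ha hb hA hB => ?_⟩
  have hI : ∀ {c : ℕ → ℝ}, (Summable fun k => |c k|) → ∑' k, |c k| ≤ 1 →
      IntervalIntegrable (fun x => Ph k (rho + ev c x) * (P k).eval x) MeasureTheory.volume (-1) 1 := by
    intro c hc hc1
    refine ContinuousOn.intervalIntegrable ?_
    rw [uIcc_of_le (by norm_num : (-1 : ℝ) ≤ 1)]
    exact (Ph_ev_cont k hc hc1).mul (Polynomial.continuous _).continuousOn
  rw [Mom_eq k a, Mom_eq k b, ← intervalIntegral.integral_sub (hI ha hA) (hI hb hB)]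
  have h := intervalIntegral.norm_integral_le_of_norm_le_const (a := (-1 : ℝ)) (b := 1)
    (f := fun x => Ph k (rho + ev a x) * (P k).eval x - Ph k (rho + ev b x) * (P k).eval x)
    (C := C * ∑' k, |a k - b k|) (fun x hx => by
      rw [uIoc_of_le (by norm_num : (-1 : ℝ) ≤ 1)] at hx
      have hx' : |x| ≤ 1 := abs_le.2 (Ioc_subset_Icc_self hx)
      rw [Real.norm_eq_abs, ← sub_mul, abs_mul]
      have e1 := hL _ _ (ev_small ha hA hx') (ev_small hb hB hx')
      have e2 := ev_sub_le ha hb hx'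
      calc |Ph k (rho + ev a x) - Ph k (rho + ev b x)| * |(P k).eval x|
          ≤ (C * |ev a x - ev b x|) * 1 :=
            mul_le_mul e1 (abs_le_one k hx') (abs_nonneg _) (by positivity)
        _ = C * |ev a x - ev b x| := mul_one _
        _ ≤ C * ∑' k, |a k - b k| := mul_le_mul_of_nonneg_left e2 hC)
  rw [Real.norm_eq_abs] at h
  refine h.trans (le_of_eq ?_)
  norm_num
  ring

end Pool.Agent.H30.SB
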