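import Pool.Agent.H30.SB.Prod
import Pool.Agent.H30.SB.Boot

/-!
# SB.Bs : the bootstrap and the quadratic approximation `TB`
-/

set_option autoImplicit false

namespace Pool.Agent.H30.SB

open Pool.Agent.H68.SC (jl djl)
open Pool.Agent.H27.Leg (P abs_le_one c c_nonneg c_sum c_zero c_symm)
open Set MeasureTheory SF
open Finset (range)

/-- the deviation from the main mode -/
noncomputable def ps (a : ℕ → ℝ) (k : ℕ) : ℝ := if k = ell then 0 else a k

theorem abs_ps (a : ℕ → ℝ) (k : ℕ) : |ps a k| = if k = ell then 0 else |a k| := by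
  unfold ps
  split_ifs
  · exact abs_zero
  · rfl

variable {a : ℕ → ℝ} {E : ℝ}

theorem ps_summ (ha : Summable fun k => |a k|) : Summable fun k => |ps a k| := by
  refine Summable.of_nonneg_of_le (fun k => abs_nonneg _) (fun k => ?_) ha
  rw [abs_ps]
  split_ifs
  · exact abs_nonneg _
  · exact le_rfl

/-- the total deviation -/
noncomputable def dev (a : ℕ → ℝ) : ℝ := ∑' k, |ps a k|

theorem dev_nonneg : 0 ≤ dev a := tsum_nonneg fun _ => abs_nonneg _

theorem One.dev_near (h : One a E) : dev a ≤ 2000 * E ^ 2 := by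
  unfold dev
  simp only [abs_ps]
  exact h.near

theorem One.tot (h : One a E) : ∑' k, |a k| ≤ E + dev a := by
  have hE := IE_bd h.mem
  rw [abs_split h.summ, h.amp, abs_of_nonneg (by linarith [hE.1])]
  unfold dev
  simp only [abs_ps]
  exact le_rfl

theorem One.dev_small (h : One a E) : E + dev a ≤ 3 / 10 ^ 4 := by
  have hE := IE_bd h.mem
  have := h.dev_near
  nlinarith [hE.1, hE.2]

theorem ev_split (ha : Summable fun k => |a k|) (hE : a ell = E) {x : ℝ} (hx : |x| ≤ 1) :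
    ev a x = E * (P 478).eval x + ev (ps a) x := by
  unfold ev
  rw [(summ_ev ha hx).tsum_eq_add_tsum_ite ell, hE]
  congr 1
  refine tsum_congr fun k => ?_
  unfold ps
  split_ifs
  · rw [zero_mul]
  · rfl

/-- the boundary function is small -/
theorem One.phi_le (h : One a E) {x : ℝ} (hx : x ∈ Icc (-1 : ℝ) 1) : |ev a x| ≤ E + dev a :=
  ev_small h.summ h.tot (abs_le.2 hx)

/-- the square of the boundary function -/
theorem co_sq (k : ℕ) (ha : Summable fun k => |a k|) (hE : a ell = E) :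
    co k (fun x => ev a x * ev a x) = E ^ 2 * c 478 478 k +
      2 * E * co k (fun x => ev (ps a) x * (P 478).eval x) + co k (fun x => ev (ps a) x * ev (ps a) x) := by
  have hp := ps_summ ha
  have h1 : co k (fun x => ev a x * ev a x) = co k (fun x => (E ^ 2 * ((P 478).eval x * (P 478).eval x) +
      2 * E * (ev (ps a) x * (P 478).eval x)) + ev (ps a) x * ev (ps a) x) := by
    refine co_congr k fun x hx => ?_
    rw [ev_split ha hE (abs_le.2 hx)]
    ring
  have c1 : ContinuousOn (fun x => E ^ 2 * ((P 478).eval x * (P 478).eval x)) (Icc (-1 : ℝ) 1) :=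
    continuousOn_const.mul ((P_cont 478).mul (P_cont 478))
  have c2 : ContinuousOn (fun x => 2 * E * (ev (ps a) x * (P 478).eval x)) (Icc (-1 : ℝ) 1) :=
    continuousOn_const.mul ((ev_cont hp).mul (P_cont 478))
  have c3 : ContinuousOn (fun x => ev (ps a) x * ev (ps a) x) (Icc (-1 : ℝ) 1) := (ev_cont hp).mul (ev_cont hp)
  have c12 : ContinuousOn (fun x => E ^ 2 * ((P 478).eval x * (P 478).eval x) +
      2 * E * (ev (ps a) x * (P 478).eval x)) (Icc (-1 : ℝ) 1) := c1.add c2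
  rw [h1, co_add k c12 c3, co_add k c1 c2, co_smul, co_smul, co_PP]

theorem Mom_co (k : ℕ) (a : ℕ → ℝ) : (2 * (k : ℝ) + 1) / 2 * Mom k a = co k (fun x => Ph k (rho + ev a x)) := rfl

/-- one even mode `k ≤ 1210`, `k ≠ 478` -/
theorem One.low (h : One a E) {k : ℕ} (hk : Even k) (hne : k ≠ ell) (hk2 : k ≤ 1210) :
    |a k + Kq k * co k (fun x => ev a x * ev a x)| ≤ 20 * (E + dev a) ^ 3 := by
  have hj := jl_ne k hk hne
  have hK := K_le k hk hne hk2
  have hr : 0 < rho ^ 2 := pow_pos SN.rho_pos 2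
  have hsm := h.dev_small
  have hc := ev_cont h.summ
  have hd0 : 0 ≤ E + dev a := by
    have := IE_bd h.mem
    have := dev_nonneg (a := a)
    linarith
  have hcF : ContinuousOn (fun x => Ph k (rho + ev a x) -
      rho ^ 2 * jl k rho * (ev a x + Kq k * (ev a x * ev a x))) (Icc (-1) 1) := by
    refine (Ph_ev_cont k h.summ h.one).sub (continuousOn_const.mul (hc.add (continuousOn_const.mul (hc.mul hc))))
  have hb := co_bound k hk2 (M := rho ^ 2 * |jl k rho| * (2 / 5 * (E + dev a) ^ 3)) hcF fun x hx => by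
    have h1 := h.phi_le hx
    have h2 := tay_low k hk2 hj hK (h := ev a x) (h1.trans hsm)
    have e : rho ^ 2 * jl k rho * (ev a x + Kq k * (ev a x * ev a x)) =
        rho ^ 2 * jl k rho * (ev a x + (djl k rho / jl k rho / 2 + 1 / rho) * ev a x ^ 2) := by
      unfold Kq
      ring
    show |Ph k (rho + ev a x) - rho ^ 2 * jl k rho * (ev a x + Kq k * (ev a x * ev a x))| ≤ _
    rw [e]
    refine h2.trans ?_
    gcongr
  have hcp : ContinuousOn (fun x => rho ^ 2 * jl k rho * (ev a x + Kq k * (ev a x * ev a x))) (Icc (-1) 1) :=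
    continuousOn_const.mul (hc.add (continuousOn_const.mul (hc.mul hc)))
  have hc2 : ContinuousOn (fun x => Kq k * (ev a x * ev a x)) (Icc (-1) 1) :=
    continuousOn_const.mul (hc.mul hc)
  rw [co_sub k (Ph_ev_cont k h.summ h.one) hcp, ← Mom_co, h.mom k hk hne hk2, co_smul, co_add k hc hc2, co_smul,
    co_ev k h.summ, mul_zero, zero_sub, abs_neg, abs_mul, abs_mul, abs_of_pos hr] at hb
  have hA : 0 < rho ^ 2 * |jl k rho| := mul_pos hr (abs_pos.2 hj)
  have h3 : rho ^ 2 * |jl k rho| * |a k + Kq k * co k (fun x => ev a x * ev a x)| ≤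
      rho ^ 2 * |jl k rho| * (20 * (E + dev a) ^ 3) := by
    refine hb.trans (le_of_eq ?_)
    ring
  exact le_of_mul_le_mul_left h3 hA

/-- abbreviations for the two error coefficients -/
noncomputable def e1 (a : ℕ → ℝ) (k : ℕ) : ℝ := |co k (fun x => ev (ps a) x * (P 478).eval x)|
noncomputable def e2 (a : ℕ → ℝ) (k : ℕ) : ℝ := |co k (fun x => ev (ps a) x * ev (ps a) x)|

theorem One.abs_low (h : One a E) {k : ℕ} (hk : Even k) (hne : k ≠ ell) (hk2 : k ≤ 1210) :
    |a k| ≤ |Kq k| * (E ^ 2 * c 478 478 k + 2 * E * e1 a k + e2 a k) + 20 * (E + dev a) ^ 3 := by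
  have h1 := h.low hk hne hk2
  rw [co_sq k h.summ h.amp] at h1
  have hE := (IE_bd h.mem).1
  have hE0 : 0 ≤ E := by linarith
  set u := co k (fun x => ev (ps a) x * (P 478).eval x) with hu
  set v := co k (fun x => ev (ps a) x * ev (ps a) x) with hv
  have h2 : |a k| ≤ |a k + Kq k * (E ^ 2 * c 478 478 k + 2 * E * u + v)| +
      |Kq k * (E ^ 2 * c 478 478 k + 2 * E * u + v)| := by
    have := abs_sub (a k + Kq k * (E ^ 2 * c 478 478 k + 2 * E * u + v))
      (Kq k * (E ^ 2 * c 478 478 k + 2 * E * u + v))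
    rwa [add_sub_cancel_right] at this
  have h3 : |E ^ 2 * c 478 478 k + 2 * E * u + v| ≤ E ^ 2 * c 478 478 k + 2 * E * e1 a k + e2 a k := by
    refine (abs_add_three _ _ _).trans ?_
    rw [abs_of_nonneg (mul_nonneg (sq_nonneg E) (c_nonneg _ _ _)), abs_mul,
      abs_of_nonneg (by linarith : 0 ≤ 2 * E)]
    exact le_rfl
  rw [abs_mul] at h2
  have h4 := mul_le_mul_of_nonneg_left h3 (abs_nonneg (Kq k))
  linarith

/-- the modes `k ≤ 1210`, `k ≠ 478` -/
def SS : Finset ℕ := ((range 606).image fun j => 2 * j).erase 478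

theorem mem_SS {k : ℕ} : k ∈ SS ↔ Even k ∧ k ≠ 478 ∧ k ≤ 1210 := by
  unfold SS
  rw [Finset.mem_erase, Finset.mem_image]
  constructor
  · rintro ⟨h1, j, hj, rfl⟩
    rw [Finset.mem_range] at hj
    exact ⟨even_two_mul j, h1, by omega⟩
  · rintro ⟨h1, h2, h3⟩
    obtain ⟨j, rfl⟩ := h1.two_dvd
    exact ⟨h2, j, Finset.mem_range.2 (by omega), rfl⟩

attribute [irreducible] SS

theorem card_SS : (SS.card : ℝ) ≤ 606 := by
  have h1 : SS.card ≤ 606 := by
    unfold SS
    refine (Finset.card_le_card (Finset.erase_subset _ _)).trans (Finset.card_image_le.trans ?_)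
    rw [Finset.card_range]
  exact_mod_cast h1

theorem Kq_le {k : ℕ} (hk : Even k) (hne : k ≠ ell) (hk2 : k ≤ 1210) : |Kq k| ≤ 307 := by
  have h1 := abs_Kq_le k
  have h2 := K_le k hk hne hk2
  have h3 : |djl k rho / jl k rho| ≤ 612 := by
    rw [abs_div, div_le_iff₀ (abs_pos.2 (jl_ne k hk hne))]
    exact h2
  norm_num at h1 ⊢
  linarith

theorem One.split_sum (h : One a E) : dev a ≤ ∑ k ∈ SS, |a k| + 50 * E ^ 2 := by
  have hs := ps_summ h.summ
  have h1 := hs.sum_add_tsum_nat_add 1212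
  have h2 : ∑ k ∈ range 1212, |ps a k| = ∑ k ∈ SS, |a k| := by
    have h3 : ∑ k ∈ SS, |ps a k| = ∑ k ∈ range 1212, |ps a k| := by
      refine Finset.sum_subset ?_ ?_
      · intro k hk
        rw [mem_SS] at hk
        exact Finset.mem_range.2 (by omega)
      · intro k hk hk2
        rw [Finset.mem_range] at hk
        rw [mem_SS] at hk2
        rw [abs_ps]
        split_ifs with h4
        · rfl
        · rw [h.odd k, abs_zero]
          rw [← Nat.not_even_iff_odd]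
          intro h5
          refine hk2 ⟨h5, h4, ?_⟩
          have : k ≠ 1211 := by
            rintro rfl
            exact absurd h5 (by decide)
          omega
    rw [← h3]
    refine Finset.sum_congr rfl fun k hk => ?_
    rw [mem_SS] at hk
    have hke : ¬ k = ell := hk.2.1
    rw [abs_ps, if_neg hke]
  have h3 : ∑' k, |ps a (k + 1212)| = ∑' k, |a (k + 1212)| := by
    refine tsum_congr fun k => ?_
    rw [abs_ps, if_neg (by unfold ell; omega)]
  have h4 : dev a = ∑ k ∈ range 1212, |ps a k| + ∑' k, |ps a (k + 1212)| := h1.symm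
  rw [h4, h2, h3]
  linarith [h.high]

theorem sum_SS_c : ∑ k ∈ SS, |Kq k| * c 478 478 k ≤ 23 / 10 := by
  refine le_trans ?_ S2_le
  have h1 : ∑ k ∈ SS, |Kq k| * c 478 478 k = ∑ k ∈ SS.filter (fun k => k ∈ (range 957).erase 478), |Kq k| * c 478 478 k := by
    symm
    refine Finset.sum_filter_of_ne fun k hk hne => ?_
    rw [mem_SS] at hk
    rw [Finset.mem_erase, Finset.mem_range]
    refine ⟨hk.2.1, ?_⟩
    by_contra h2
    exact hne (by rw [SFC.c_ll_zero (by omega), mul_zero])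
  rw [h1]
  refine (Finset.sum_le_sum_of_subset_of_nonneg (t := (range 957).erase 478) ?_ ?_).trans (le_of_eq ?_)
  · intro k hk
    exact (Finset.mem_filter.1 hk).2
  · intro k _ _
    exact mul_nonneg (abs_nonneg _) (c_nonneg _ _ _)
  · exact Finset.sum_congr rfl fun k _ => mul_comm _ _

/-- the basic inequality for the total deviation -/
theorem One.basic (h : One a E) : dev a ≤ 523 / 10 * E ^ 2 + 307 * (2 * E * dev a + dev a ^ 2) +
    12120 * (E + dev a) ^ 3 := by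
  have h1 := h.split_sum
  have hE := (IE_bd h.mem).1
  have hE0 : 0 ≤ E := by linarith
  have hp := ps_summ h.summ
  have hD : 0 ≤ (E + dev a) ^ 3 := by
    have := dev_nonneg (a := a)
    positivity
  have s1 : ∑ k ∈ SS, e1 a k ≤ dev a := sum_co_P_ev SS 478 hp
  have s2 : ∑ k ∈ SS, e2 a k ≤ dev a * dev a := sum_co_ev_ev SS hp hp
  have h2 : ∑ k ∈ SS, |a k| ≤ ∑ k ∈ SS, (E ^ 2 * (|Kq k| * c 478 478 k) + 307 * (2 * E * e1 a k + e2 a k) +
      20 * (E + dev a) ^ 3) := by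
    refine Finset.sum_le_sum fun k hk => ?_
    obtain ⟨ha, hb, hc⟩ := mem_SS.1 hk
    have h3 := h.abs_low ha hb hc
    have h4 := Kq_le ha hb hc
    have h5 : 0 ≤ e1 a k := abs_nonneg _
    have h6 : 0 ≤ e2 a k := abs_nonneg _
    have h7 : |Kq k| * (2 * E * e1 a k + e2 a k) ≤ 307 * (2 * E * e1 a k + e2 a k) :=
      mul_le_mul_of_nonneg_right h4 (by positivity)
    linarith
  have h3 : ∑ k ∈ SS, (E ^ 2 * (|Kq k| * c 478 478 k) + 307 * (2 * E * e1 a k + e2 a k) +
      20 * (E + dev a) ^ 3) = E ^ 2 * ∑ k ∈ SS, |Kq k| * c 478 478 k +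
        307 * (2 * E * ∑ k ∈ SS, e1 a k + ∑ k ∈ SS, e2 a k) + SS.card * (20 * (E + dev a) ^ 3) := by
    rw [Finset.sum_add_distrib, Finset.sum_add_distrib, Finset.sum_const, nsmul_eq_mul, ← Finset.mul_sum,
      ← Finset.mul_sum, Finset.sum_add_distrib, ← Finset.mul_sum]
  rw [h3] at h2
  have h4 : E ^ 2 * ∑ k ∈ SS, |Kq k| * c 478 478 k ≤ E ^ 2 * (23 / 10) :=
    mul_le_mul_of_nonneg_left sum_SS_c (sq_nonneg E)
  have h5 : 307 * (2 * E * ∑ k ∈ SS, e1 a k + ∑ k ∈ SS, e2 a k) ≤ 307 * (2 * E * dev a + dev a * dev a) := by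
    gcongr
  have h6 : (SS.card : ℝ) * (20 * (E + dev a) ^ 3) ≤ 606 * (20 * (E + dev a) ^ 3) :=
    mul_le_mul_of_nonneg_right card_SS (by positivity)
  have e : dev a ^ 2 = dev a * dev a := sq _
  rw [e]
  linarith

/-- one bootstrap step -/
theorem One.step (h : One a E) {x y : ℝ} (hx0 : 0 ≤ x) (hx : dev a ≤ x * E ^ 2)
    (hy : 523 / 10 + 307 * (2 * (16 / 10 ^ 5 * x) + (16 / 10 ^ 5 * x) ^ 2) +
      12120 * (16 / 10 ^ 5) * (1 + 16 / 10 ^ 5 * x) ^ 3 ≤ y) : dev a ≤ y * E ^ 2 := by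
  obtain ⟨hE1, hE2⟩ := IE_bd h.mem
  have hE0 : 0 < E := by linarith
  have hD := dev_nonneg (a := a)
  have h1 : dev a ≤ (x * E) * E := by linarith [hx, sq E]
  have hxE : x * E ≤ 16 / 10 ^ 5 * x := by
    rw [mul_comm (16 / 10 ^ 5 : ℝ) x]
    exact mul_le_mul_of_nonneg_left hE2 hx0
  have h2 : E * dev a ≤ (16 / 10 ^ 5 * x) * E ^ 2 := by
    calc E * dev a ≤ E * ((x * E) * E) := mul_le_mul_of_nonneg_left h1 hE0.le
      _ = (x * E) * E ^ 2 := by ring
      _ ≤ _ := mul_le_mul_of_nonneg_right hxE (sq_nonneg E)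
  have h3 : dev a ^ 2 ≤ (16 / 10 ^ 5 * x) ^ 2 * E ^ 2 := by
    calc dev a ^ 2 ≤ ((x * E) * E) ^ 2 := pow_le_pow_left₀ hD h1 2
      _ = (x * E) ^ 2 * E ^ 2 := by ring
      _ ≤ _ := mul_le_mul_of_nonneg_right (pow_le_pow_left₀ (by positivity) hxE 2) (sq_nonneg E)
  have h4 : (E + dev a) ^ 3 ≤ (16 / 10 ^ 5) * (1 + 16 / 10 ^ 5 * x) ^ 3 * E ^ 2 := by
    have h5 : E + dev a ≤ E * (1 + 16 / 10 ^ 5 * x) := by
      have : (x * E) * E ≤ (16 / 10 ^ 5 * x) * E := mul_le_mul_of_nonneg_right hxE hE0.le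
      linarith
    calc (E + dev a) ^ 3 ≤ (E * (1 + 16 / 10 ^ 5 * x)) ^ 3 := pow_le_pow_left₀ (by linarith) h5 3
      _ = E * ((1 + 16 / 10 ^ 5 * x) ^ 3 * E ^ 2) := by ring
      _ ≤ (16 / 10 ^ 5) * ((1 + 16 / 10 ^ 5 * x) ^ 3 * E ^ 2) :=
          mul_le_mul_of_nonneg_right hE2 (by positivity)
      _ = _ := by ring
  have h5 := h.basic
  have h6 : (523 / 10 + 307 * (2 * (16 / 10 ^ 5 * x) + (16 / 10 ^ 5 * x) ^ 2) +
      12120 * (16 / 10 ^ 5) * (1 + 16 / 10 ^ 5 * x) ^ 3) * E ^ 2 ≤ y * E ^ 2 :=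
    mul_le_mul_of_nonneg_right hy (sq_nonneg E)
  refine le_trans ?_ h6
  linarith

theorem One.dev63 (h : One a E) : dev a ≤ 63 * E ^ 2 := by
  have h0 := h.dev_near
  have h1 := h.step (y := 285) (by norm_num) h0 (by norm_num)
  have h2 := h.step (y := 84) (by norm_num) h1 (by norm_num)
  exact h.step (y := 63) (by norm_num) h2 (by norm_num)

/-- the modes `k ≤ 956`, `k ≠ 478` -/
def TT : Finset ℕ := ((range 479).image fun j => 2 * j).erase 478

theorem mem_TT {k : ℕ} : k ∈ TT ↔ Even k ∧ k ≠ 478 ∧ k ≤ 956 := by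
  unfold TT
  rw [Finset.mem_erase, Finset.mem_image]
  constructor
  · rintro ⟨h1, j, hj, rfl⟩
    rw [Finset.mem_range] at hj
    exact ⟨even_two_mul j, h1, by omega⟩
  · rintro ⟨h1, h2, h3⟩
    obtain ⟨j, rfl⟩ := h1.two_dvd
    exact ⟨h2, j, Finset.mem_range.2 (by omega), rfl⟩

attribute [irreducible] TT

theorem card_TT : (TT.card : ℝ) ≤ 479 := by
  have h1 : TT.card ≤ 479 := by
    unfold TT
    refine (Finset.card_le_card (Finset.erase_subset _ _)).trans (Finset.card_image_le.trans ?_)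
    rw [Finset.card_range]
  exact_mod_cast h1

theorem sum_TT_c : ∑ k ∈ TT, c 478 k 478 ≤ 122 := by
  have h1 : ∀ k ∈ TT, c 478 k 478 ≤ 251 / 1000 + (if k = 0 then 1 else 0) := by
    intro k _
    split_ifs with h
    · rw [h, SFC.c_l0]
      norm_num
    · have := c_back_le k (Nat.pos_of_ne_zero h)
      linarith
  refine (Finset.sum_le_sum h1).trans ?_
  rw [Finset.sum_add_distrib, Finset.sum_const, nsmul_eq_mul, Finset.sum_ite_eq']
  have := card_TT
  split_ifs <;> linarith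

/-- the cross term of the resonant mode -/
theorem One.cross (h : One a E) : |co 478 (fun x => ev (ps a) x * (P 478).eval x)| ≤
    51607 / 10 ^ 7 * E ^ 2 + 67 / 100 * (2 * E * dev a + dev a ^ 2) + 2440 * (E + dev a) ^ 3 := by
  have hE := (IE_bd h.mem).1
  have hE0 : 0 ≤ E := by linarith
  have hp := ps_summ h.summ
  have hD : 0 ≤ (E + dev a) ^ 3 := by
    have := dev_nonneg (a := a)
    positivity
  have hcs : ∀ m, c m 478 478 = c 478 m 478 := fun m => c_symm _ _ _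
  have h0 : co 478 (fun x => ev (ps a) x * (P 478).eval x) = ∑ m ∈ TT, ps a m * c 478 m 478 := by
    rw [← (co_hasSum 478 hp (P_cont 478)).tsum_eq]
    rw [tsum_eq_sum (s := TT)]
    · refine Finset.sum_congr rfl fun m _ => ?_
      rw [co_PP, hcs]
    · intro m hm
      rw [mem_TT] at hm
      rw [co_PP, hcs]
      by_cases h1 : m = 478
      · have h1e : m = ell := h1
        rw [ps, if_pos h1e, zero_mul]
      · by_cases h2 : Even m
        · rw [SFC.c_lk_zero (by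
            by_contra h3
            exact hm ⟨h2, h1, by omega⟩), mul_zero]
        · rw [SFC.c_odd' h2, mul_zero]
  rw [h0]
  have s1 : ∑ k ∈ TT, e1 a k ≤ dev a := sum_co_P_ev TT 478 hp
  have s2 : ∑ k ∈ TT, e2 a k ≤ dev a * dev a := sum_co_ev_ev TT hp hp
  have h1 : |∑ m ∈ TT, ps a m * c 478 m 478| ≤ ∑ m ∈ TT, (E ^ 2 * (c 478 478 m * c 478 m 478 * |Kq m|) +
      67 / 100 * (2 * E * e1 a m + e2 a m) + c 478 m 478 * (20 * (E + dev a) ^ 3)) := by
    refine (Finset.abs_sum_le_sum_abs _ _).trans (Finset.sum_le_sum fun m hm => ?_)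
    obtain ⟨ha, hb, hc⟩ := mem_TT.1 hm
    have hbe : ¬ m = ell := hb
    rw [abs_mul, abs_of_nonneg (c_nonneg 478 m 478), abs_ps, if_neg hbe]
    have h3 := h.abs_low ha hb (by omega)
    have h4 := back_le m hb
    have h5 : 0 ≤ e1 a m := abs_nonneg _
    have h6 : 0 ≤ e2 a m := abs_nonneg _
    have h7 : |Kq m| * c 478 m 478 * (2 * E * e1 a m + e2 a m) ≤ 67 / 100 * (2 * E * e1 a m + e2 a m) :=
      mul_le_mul_of_nonneg_right h4 (by positivity)
    have h8 := mul_le_mul_of_nonneg_right h3 (c_nonneg 478 m 478)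
    refine h8.trans ?_
    linarith
  refine h1.trans ?_
  rw [Finset.sum_add_distrib, Finset.sum_add_distrib, ← Finset.sum_mul, ← Finset.mul_sum, ← Finset.mul_sum,
    Finset.sum_add_distrib, ← Finset.mul_sum]
  have h2 : ∑ k ∈ TT, c 478 478 k * c 478 k 478 * |Kq k| ≤ 51607 / 10 ^ 7 := by
    refine le_trans ?_ S3_le
    refine Finset.sum_le_sum_of_subset_of_nonneg ?_ ?_
    · intro k hk
      rw [mem_TT] at hk
      rw [Finset.mem_erase, Finset.mem_range]
      exact ⟨hk.2.1, by omega⟩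
    · intro k _ _
      exact mul_nonneg (mul_nonneg (c_nonneg _ _ _) (c_nonneg _ _ _)) (abs_nonneg _)
  have h3 : E ^ 2 * ∑ k ∈ TT, c 478 478 k * c 478 k 478 * |Kq k| ≤ E ^ 2 * (51607 / 10 ^ 7) :=
    mul_le_mul_of_nonneg_left h2 (sq_nonneg E)
  have h4 : 67 / 100 * (2 * E * ∑ k ∈ TT, e1 a k + ∑ k ∈ TT, e2 a k) ≤
      67 / 100 * (2 * E * dev a + dev a * dev a) := by
    gcongr
  have h5 : (∑ k ∈ TT, c 478 k 478) * (20 * (E + dev a) ^ 3) ≤ 122 * (20 * (E + dev a) ^ 3) :=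
    mul_le_mul_of_nonneg_right sum_TT_c (by positivity)
  have e : dev a ^ 2 = dev a * dev a := sq _
  rw [e]
  linarith

/-- the remainder of mode `478` -/
theorem One.rem (h : One a E) :
    |957 / 2 * Mom ell a - rho ^ 2 * djl ell rho * (jl ell rho / djl ell rho * E +
      (1 / 2 + jl ell rho / djl ell rho / rho) * co 478 (fun x => ev a x * ev a x))| ≤
      rho ^ 2 * |djl ell rho| * (1 / 50 * (E + dev a) ^ 3) := by
  have hsm := h.dev_small
  have hc := ev_cont h.summ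
  have hd0 : 0 ≤ E + dev a := by
    have := IE_bd h.mem
    have := dev_nonneg (a := a)
    linarith
  set D := jl ell rho / djl ell rho with hDd
  have hc1 : ContinuousOn (fun x => D * ev a x) (Icc (-1) 1) := continuousOn_const.mul hc
  have hc2 : ContinuousOn (fun x => (1 / 2 + D / rho) * (ev a x * ev a x)) (Icc (-1) 1) :=
    continuousOn_const.mul (hc.mul hc)
  have hcp : ContinuousOn (fun x => rho ^ 2 * djl ell rho * (D * ev a x + (1 / 2 + D / rho) * (ev a x * ev a x)))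
      (Icc (-1) 1) := continuousOn_const.mul (hc1.add hc2)
  have hb := co_bound ell (by unfold ell; norm_num) (M := rho ^ 2 * |djl ell rho| * (1 / 2500 * (E + dev a) ^ 3))
    ((Ph_ev_cont ell h.summ h.one).sub hcp) fun x hx => by
    have h1 := h.phi_le hx
    have h2 := tay_l djl_ell_ne D_abs (h := ev a x) (h1.trans hsm)
    have e : rho ^ 2 * djl ell rho * (D * ev a x + (1 / 2 + D / rho) * (ev a x * ev a x)) =
        rho ^ 2 * djl ell rho * (D * ev a x + (1 / 2 + D / rho) * ev a x ^ 2) := by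
      ring
    show |Ph ell (rho + ev a x) - rho ^ 2 * djl ell rho * (D * ev a x + (1 / 2 + D / rho) * (ev a x * ev a x))| ≤ _
    rw [e]
    refine h2.trans ?_
    have h3 : |ev a x| ^ 3 ≤ (E + dev a) ^ 3 := pow_le_pow_left₀ (abs_nonneg _) h1 3
    exact mul_le_mul_of_nonneg_left (mul_le_mul_of_nonneg_left h3 (by norm_num)) (by positivity)
  have hb : |co ell (fun x => Ph ell (rho + ev a x) -
      rho ^ 2 * djl ell rho * (D * ev a x + (1 / 2 + D / rho) * (ev a x * ev a x)))| ≤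
      50 * (rho ^ 2 * |djl ell rho| * (1 / 2500 * (E + dev a) ^ 3)) := hb
  have hm : (2 * (ell : ℝ) + 1) / 2 * Mom ell a = 957 / 2 * Mom ell a := by
    unfold ell
    norm_num
  rw [co_sub ell (Ph_ev_cont ell h.summ h.one) hcp, ← Mom_co, hm, co_smul, co_add ell hc1 hc2, co_smul, co_smul,
    co_ev ell h.summ, h.amp] at hb
  refine hb.trans (le_of_eq ?_)
  ring

/-- the quadratic approximation (block 6b) -/
theorem tb (a : ℕ → ℝ) (E : ℝ) (h : One a E) : TB a E := by
  obtain ⟨hE1, hE2⟩ := IE_bd h.mem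
  have hE0 : 0 < E := by linarith
  have hp := ps_summ h.summ
  have hX0 := dev_nonneg (a := a)
  have hX := h.dev63
  have hr := h.rem
  have hcr := h.cross
  have hB : |co 478 (fun x => ev (ps a) x * ev (ps a) x)| ≤ dev a ^ 2 := by
    have := sum_co_ev_ev {478} hp hp
    rw [Finset.sum_singleton] at this
    rw [sq]
    exact this
  rw [co_sq 478 h.summ h.amp] at hr
  unfold TB
  have hd := djl_ell_ne
  have hrho : (0 : ℝ) < rho := SN.rho_pos
  obtain ⟨D1, D2⟩ := D_neg_bound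
  have g1 := g_gt
  have g2 := g_lt
  have hg : c 478 478 478 = c ell ell ell := rfl
  rw [hg] at hr
  set D := jl ell rho / djl ell rho with hDd
  set g := c ell ell ell with hgd
  set d := djl ell rho with hdd
  set u := co 478 (fun x => ev (ps a) x * (P 478).eval x) with hu
  set v := co 478 (fun x => ev (ps a) x * ev (ps a) x) with hv
  set X := dev a with hXd
  -- the size of `D / rho`
  have hq : |D / rho| ≤ 1 / 10 ^ 10 := by
    have hr1 := rho_gt'
    rw [abs_div, abs_of_pos hrho, div_le_iff₀ hrho]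
    have : |D| ≤ 1 / 10 ^ 7 := by
      rw [abs_le]
      norm_num at D1 D2 ⊢
      constructor <;> linarith
    norm_num at this ⊢
    linarith
  -- polynomial bounds
  have b1 : E * X ≤ 63 * (16 / 10 ^ 5) * E ^ 2 := by
    have : X ≤ 63 * E * E := by linarith [sq E]
    calc E * X ≤ E * (63 * E * E) := mul_le_mul_of_nonneg_left this hE0.le
      _ = 63 * E * E ^ 2 := by ring
      _ ≤ 63 * (16 / 10 ^ 5) * E ^ 2 := by gcongr
  have b2 : X ≤ 63 * (16 / 10 ^ 5) * E := by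
    have : X ≤ 63 * E * E := by linarith [sq E]
    refine this.trans ?_
    gcongr
  have b3 : X ^ 2 ≤ (63 * (16 / 10 ^ 5)) ^ 2 * E ^ 2 := by
    calc X ^ 2 ≤ (63 * (16 / 10 ^ 5) * E) ^ 2 := pow_le_pow_left₀ hX0 b2 2
      _ = _ := by ring
  have b4 : (E + X) ^ 3 ≤ 16 / 10 ^ 5 * (1 + 63 * (16 / 10 ^ 5)) ^ 3 * E ^ 2 := by
    have h5 : E + X ≤ E * (1 + 63 * (16 / 10 ^ 5)) := by linarith
    calc (E + X) ^ 3 ≤ (E * (1 + 63 * (16 / 10 ^ 5))) ^ 3 := pow_le_pow_left₀ (by linarith) h5 3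
      _ = E * ((1 + 63 * (16 / 10 ^ 5)) ^ 3 * E ^ 2) := by ring
      _ ≤ (16 / 10 ^ 5) * ((1 + 63 * (16 / 10 ^ 5)) ^ 3 * E ^ 2) :=
          mul_le_mul_of_nonneg_right hE2 (by positivity)
      _ = _ := by ring
  have hu2 : |u| ≤ 45 / 100 * E ^ 2 := by
    refine hcr.trans ?_
    norm_num at b1 b3 b4 ⊢
    linarith
  have hE3 : 0 ≤ E ^ 2 := sq_nonneg E
  -- the main comparison
  have e : 957 / 2 * Mom ell a - rho ^ 2 * d * (D * E + g / 2 * E ^ 2) =
      (957 / 2 * Mom ell a - rho ^ 2 * d * (D * E + (1 / 2 + D / rho) * (E ^ 2 * g + 2 * E * u + v))) +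
        rho ^ 2 * d * (D / rho * (E ^ 2 * g) + (1 / 2 + D / rho) * (2 * E * u + v)) := by ring
  rw [e]
  refine (abs_add_le _ _).trans ?_
  have hw : |D / rho * (E ^ 2 * g) + (1 / 2 + D / rho) * (2 * E * u + v)| ≤
      1 / 10 ^ 10 * E ^ 2 + (1 / 2 + 1 / 10 ^ 10) * (2 * E * (45 / 100 * E ^ 2) + X ^ 2) := by
    refine (abs_add_le _ _).trans (add_le_add ?_ ?_)
    · rw [abs_mul, abs_of_nonneg (mul_nonneg hE3 (by linarith))]
      have : E ^ 2 * g ≤ E ^ 2 * 1 := mul_le_mul_of_nonneg_left (by linarith) hE3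
      calc |D / rho| * (E ^ 2 * g) ≤ 1 / 10 ^ 10 * (E ^ 2 * 1) :=
            mul_le_mul hq this (mul_nonneg hE3 (by linarith)) (by norm_num)
        _ = _ := by ring
    · rw [abs_mul]
      refine mul_le_mul ?_ ?_ (abs_nonneg _) (by norm_num)
      · refine (abs_add_le _ _).trans ?_
        rw [abs_of_pos (by norm_num : (0 : ℝ) < 1 / 2)]
        linarith
      · refine (abs_add_le _ _).trans ?_
        rw [abs_mul, abs_of_pos (by linarith : 0 < 2 * E)]
        gcongr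
  have hA : 0 ≤ rho ^ 2 * |d| := by positivity
  have h2 : |rho ^ 2 * d * (D / rho * (E ^ 2 * g) + (1 / 2 + D / rho) * (2 * E * u + v))| ≤
      rho ^ 2 * |d| * (1 / 10 ^ 10 * E ^ 2 + (1 / 2 + 1 / 10 ^ 10) * (2 * E * (45 / 100 * E ^ 2) + X ^ 2)) := by
    rw [abs_mul, abs_mul, abs_of_nonneg (sq_nonneg rho)]
    exact mul_le_mul_of_nonneg_left hw hA
  have b5 : 2 * E * (45 / 100 * E ^ 2) ≤ 2 * (16 / 10 ^ 5) * (45 / 100 * E ^ 2) := by gcongr
  have h3 : 1 / 50 * (E + X) ^ 3 + (1 / 10 ^ 10 * E ^ 2 + (1 / 2 + 1 / 10 ^ 10) * (2 * E * (45 / 100 * E ^ 2) + X ^ 2)) ≤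
      5 / 20000 * E ^ 2 := by
    norm_num at b3 b4 b5 ⊢
    linarith
  calc _ ≤ rho ^ 2 * |d| * (1 / 50 * (E + X) ^ 3) +
        rho ^ 2 * |d| * (1 / 10 ^ 10 * E ^ 2 + (1 / 2 + 1 / 10 ^ 10) * (2 * E * (45 / 100 * E ^ 2) + X ^ 2)) :=
        add_le_add hr h2
    _ = rho ^ 2 * |d| * (1 / 50 * (E + X) ^ 3 + (1 / 10 ^ 10 * E ^ 2 +
        (1 / 2 + 1 / 10 ^ 10) * (2 * E * (45 / 100 * E ^ 2) + X ^ 2))) := by ring
    _ ≤ rho ^ 2 * |d| * (5 / 20000 * E ^ 2) := mul_le_mul_of_nonneg_left h3 hA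

/-- block BOOT -/
theorem boot' {a : ℝ → ℕ → ℝ} (summ : ∀ E ∈ IE, Summable fun k => |a E k|)
    (odd : ∀ E ∈ IE, ∀ k, Odd k → a E k = 0) (amp : ∀ E ∈ IE, a E ell = E)
    (near : ∀ E ∈ IE, ∑' k, (if k = ell then 0 else |a E k|) ≤ 2000 * E ^ 2)
    (high : ∀ E ∈ IE, ∑' k, |a E (k + 1212)| ≤ 50 * E ^ 2)
    (lip : ∃ C : ℝ, ∀ E ∈ IE, ∀ E' ∈ IE, ∑' k, |a E k - a E' k| ≤ C * |E - E'|)
    (mom : ∀ E ∈ IE, ∀ k, Even k → k ≠ ell → k ≤ 1210 → Mom k (a E) = 0) :
    ∃ E ∈ IE, Mom ell (a E) = 0 :=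
  boot_of tb (fun E hE => ⟨hE, summ E hE, odd E hE, amp E hE, near E hE, high E hE, mom E hE⟩) lip

end Pool.Agent.H30.SB
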