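import Mathlib
import Pool.Agent.H68.SC.Jl
import Pool.Agent.H21.SN.Rho

/-!
# SB.Ph : the radial primitives `Ph k r = ∫_rho^r t² j_k(t) dt` and their expansion at `rho`
-/

set_option autoImplicit false

namespace Pool.Agent.H30.SB

open Pool.Agent.H68.SC (jl djl jl_deriv jl_ode jl_smooth djl_smooth)
open SN (rho rho_gt rho_lt rho_pos)
open Set

/-- `Ph k r = ∫_rho^r t² j_k(t) dt` -/
noncomputable def Ph (k : ℕ) (r : ℝ) : ℝ := ∫ t in rho..r, t ^ 2 * jl k t

theorem Ph_rho (k : ℕ) : Ph k rho = 0 := intervalIntegral.integral_same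

theorem jl_cont (k : ℕ) {t : ℝ} (ht : 0 < t) : ContinuousAt (jl k) t := (jl_deriv k ht).continuousAt

theorem Ph_deriv (k : ℕ) {r : ℝ} (hr : 0 < r) : HasDerivAt (Ph k) (r ^ 2 * jl k r) r := by
  have hc : ContinuousOn (fun t : ℝ => t ^ 2 * jl k t) (Ioi 0) :=
    (continuousOn_id.pow 2).mul (jl_smooth k).continuousOn
  have hsub : uIcc rho r ⊆ Ioi 0 := by
    intro t ht
    exact lt_of_lt_of_le (lt_min rho_pos hr) ht.1
  refine intervalIntegral.integral_hasDerivAt_right ?_ ?_ ?_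
  · exact (hc.mono hsub).intervalIntegrable
  · exact hc.stronglyMeasurableAtFilter isOpen_Ioi r hr
  · exact hc.continuousAt (Ioi_mem_nhds hr)

theorem djl_deriv' (k : ℕ) {t : ℝ} (ht : 0 < t) :
    HasDerivAt (djl k) (((k : ℝ) * (k + 1) / t ^ 2 - 1) * jl k t - 2 / t * djl k t) t := by
  have h1 := (jl_ode k ht).div (hasDerivAt_pow 2 t) (pow_ne_zero 2 ht.ne')
  have h2 : HasDerivAt (djl k) (((((k : ℝ) * (k + 1) - t ^ 2) * jl k t) * t ^ 2 -
      t ^ 2 * djl k t * ((2 : ℕ) * t ^ (2 - 1))) / (t ^ 2) ^ 2) t := by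
    refine h1.congr_of_eventuallyEq ?_
    filter_upwards [lt_mem_nhds ht] with y hy
    have hyne : y ≠ 0 := ne_of_gt hy
    simp only [Pi.div_apply]
    field_simp
  convert h2 using 1
  have hne : t ≠ 0 := ht.ne'
  field_simp
  ring

/-- one integration of a power bound -/
theorem step_bd {n : ℕ} {C a : ℝ} {f f' : ℝ → ℝ} (h0 : f 0 = 0)
    (hd : ∀ t ∈ Icc 0 a, HasDerivAt f (f' t) t) (hb : ∀ t ∈ Icc 0 a, |f' t| ≤ C * t ^ n) :
    ∀ t ∈ Icc 0 a, |f t| ≤ C * t ^ (n + 1) / (n + 1) := by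
  have hp : ∀ t : ℝ, HasDerivAt (fun t : ℝ => C * t ^ (n + 1) / (n + 1)) (C * t ^ n) t := by
    intro t
    have h := ((hasDerivAt_pow (n + 1) t).const_mul C).div_const ((n : ℝ) + 1)
    have hn : ((n : ℝ) + 1) ≠ 0 := by positivity
    refine h.congr_deriv ?_
    push_cast
    field_simp
  have key : ∀ s : ℝ, (s = 1 ∨ s = -1) → ∀ t ∈ Icc 0 a, s * f t ≤ C * t ^ (n + 1) / (n + 1) := by
    intro s hs t ht
    have hm : MonotoneOn (fun t : ℝ => C * t ^ (n + 1) / (n + 1) - s * f t) (Icc 0 a) := by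
      refine monotoneOn_of_hasDerivWithinAt_nonneg (convex_Icc 0 a)
        (f' := fun t => C * t ^ n - s * f' t) ?_ ?_ ?_
      · intro t ht
        exact ((hp t).sub ((hd t ht).const_mul s)).continuousAt.continuousWithinAt
      · intro t ht
        exact ((hp t).sub ((hd t (interior_subset ht)).const_mul s)).hasDerivWithinAt
      · intro t ht
        have h1 := hb t (interior_subset ht)
        have h2 := abs_le.1 h1
        rcases hs with rfl | rfl <;> simp only [one_mul, neg_mul] <;> linarith [h2.1, h2.2]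
    have h0a : (0 : ℝ) ∈ Icc 0 a := ⟨le_rfl, ht.1.trans ht.2⟩
    have h := hm h0a ht ht.1
    simp only [h0, mul_zero, sub_zero] at h
    rw [zero_pow (Nat.succ_ne_zero n), mul_zero, zero_div] at h
    linarith
  intro t ht
  rw [abs_le]
  constructor
  · have := key (-1) (Or.inr rfl) t ht
    linarith
  · have := key 1 (Or.inl rfl) t ht
    linarith

/-- Taylor expansion of order two with remainder, one direction -/
theorem taylor2_pos {M a : ℝ} {F F1 F2 F3 : ℝ → ℝ} (h0 : F 0 = 0) (h1 : F1 0 = 0) (h2 : F2 0 = 0)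
    (d0 : ∀ t ∈ Icc 0 a, HasDerivAt F (F1 t) t) (d1 : ∀ t ∈ Icc 0 a, HasDerivAt F1 (F2 t) t)
    (d2 : ∀ t ∈ Icc 0 a, HasDerivAt F2 (F3 t) t) (hb : ∀ t ∈ Icc 0 a, |F3 t| ≤ M) :
    ∀ t ∈ Icc 0 a, |F t| ≤ M / 6 * t ^ 3 := by
  have a2 := step_bd (n := 0) (C := M) h2 d2 (fun t ht => by simpa using hb t ht)
  have a1 := step_bd (n := 1) (C := M) h1 d1 (fun t ht => by
    have := a2 t ht
    norm_num at this
    simpa using this)
  have a0 := step_bd (n := 2) (C := M / 2) h0 d0 (fun t ht => by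
    have := a1 t ht
    norm_num at this
    linarith)
  intro t ht
  have := a0 t ht
  norm_num at this
  linarith

/-- Taylor expansion of order two with remainder -/
theorem taylor2 {M a : ℝ} {F F1 F2 F3 : ℝ → ℝ} (h0 : F 0 = 0) (h1 : F1 0 = 0) (h2 : F2 0 = 0)
    (d0 : ∀ t, |t| ≤ a → HasDerivAt F (F1 t) t) (d1 : ∀ t, |t| ≤ a → HasDerivAt F1 (F2 t) t)
    (d2 : ∀ t, |t| ≤ a → HasDerivAt F2 (F3 t) t) (hb : ∀ t, |t| ≤ a → |F3 t| ≤ M) :
    ∀ t, |t| ≤ a → |F t| ≤ M / 6 * |t| ^ 3 := by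
  intro t ht
  have hI : ∀ s ∈ Icc 0 a, |s| ≤ a := fun s hs => by rw [abs_of_nonneg hs.1]; exact hs.2
  have hJ : ∀ s ∈ Icc 0 a, |-s| ≤ a := fun s hs => by rw [abs_neg]; exact hI s hs
  rcases le_total 0 t with h | h
  · rw [abs_of_nonneg h] at ht ⊢
    exact taylor2_pos h0 h1 h2 (fun s hs => d0 s (hI s hs)) (fun s hs => d1 s (hI s hs))
      (fun s hs => d2 s (hI s hs)) (fun s hs => hb s (hI s hs)) t ⟨h, ht⟩
  · rw [abs_of_nonpos h] at ht ⊢
    have hn : ∀ s : ℝ, HasDerivAt (fun s : ℝ => -s) (-1) s := fun s => hasDerivAt_neg' s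
    have e := taylor2_pos (M := M) (a := a) (F := fun s => F (-s)) (F1 := fun s => - F1 (-s)) (F2 := fun s => F2 (-s))
      (F3 := fun s => - F3 (-s)) (by simpa using h0) (by simpa using h1) (by simpa using h2)
      (fun s hs => by
        have := (d0 (-s) (hJ s hs)).comp s (hn s)
        simpa [Function.comp_def] using this)
      (fun s hs => by
        have := ((d1 (-s) (hJ s hs)).comp s (hn s)).fun_neg
        simpa [Function.comp_def] using this)
      (fun s hs => by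
        have := (d2 (-s) (hJ s hs)).comp s (hn s)
        simpa [Function.comp_def] using this)
      (fun s hs => by rw [abs_neg]; exact hb (-s) (hJ s hs)) (-t) ⟨by linarith, ht⟩
    simpa using e

end Pool.Agent.H30.SB
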