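import Pool.Agent.H30.SB.Brd
import Pool.Agent.H56.SF.Orth

/-!
# SB.Prod : Legendre coefficients of products of absolutely convergent Legendre series
-/

set_option autoImplicit false

namespace Pool.Agent.H30.SB

open Pool.Agent.H27.Leg (P abs_le_one c c_nonneg c_sum c_zero P_mul_eval)
open SF (ev)
open Set MeasureTheory

/-- the `k`-th Legendre coefficient of a function -/
noncomputable def co (k : ℕ) (f : ℝ → ℝ) : ℝ := (2 * (k : ℝ) + 1) / 2 * ∫ x in (-1 : ℝ)..1, f x * (P k).eval x

theorem uicc : uIcc (-1 : ℝ) 1 = Icc (-1) 1 := uIcc_of_le (by norm_num)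

theorem ii_of_cont {f : ℝ → ℝ} (hf : ContinuousOn f (Icc (-1) 1)) : IntervalIntegrable f volume (-1) 1 :=
  ContinuousOn.intervalIntegrable (by rwa [uicc])

theorem P_cont (k : ℕ) : ContinuousOn (fun x : ℝ => (P k).eval x) (Icc (-1) 1) :=
  (Polynomial.continuous _).continuousOn

theorem co_congr (k : ℕ) {f g : ℝ → ℝ} (h : ∀ x ∈ Icc (-1 : ℝ) 1, f x = g x) : co k f = co k g := by
  unfold co
  congr 1
  refine intervalIntegral.integral_congr fun x hx => ?_
  rw [uicc] at hx
  show f x * _ = g x * _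
  rw [h x hx]

theorem co_add (k : ℕ) {f g : ℝ → ℝ} (hf : ContinuousOn f (Icc (-1) 1)) (hg : ContinuousOn g (Icc (-1) 1)) :
    co k (fun x => f x + g x) = co k f + co k g := by
  have h1 : IntervalIntegrable (fun x => f x * (P k).eval x) volume (-1) 1 := ii_of_cont (hf.mul (P_cont k))
  have h2 : IntervalIntegrable (fun x => g x * (P k).eval x) volume (-1) 1 := ii_of_cont (hg.mul (P_cont k))
  unfold co
  rw [← mul_add, ← intervalIntegral.integral_add h1 h2]
  congr 1
  refine intervalIntegral.integral_congr fun x _ => ?_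
  show (f x + g x) * _ = _
  ring

theorem co_smul (k : ℕ) (r : ℝ) (f : ℝ → ℝ) : co k (fun x => r * f x) = r * co k f := by
  unfold co
  have : (∫ x in (-1 : ℝ)..1, r * f x * (P k).eval x) = r * ∫ x in (-1 : ℝ)..1, f x * (P k).eval x := by
    rw [← intervalIntegral.integral_const_mul]
    refine intervalIntegral.integral_congr fun x _ => ?_
    show r * f x * _ = _
    ring
  rw [this]
  ring

theorem co_sub (k : ℕ) {f g : ℝ → ℝ} (hf : ContinuousOn f (Icc (-1) 1)) (hg : ContinuousOn g (Icc (-1) 1)) :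
    co k (fun x => f x - g x) = co k f - co k g := by
  have h1 : co k (fun x => f x - g x) = co k (fun x => f x + (-1) * g x) := co_congr k fun x _ => by ring
  have h2 : ContinuousOn (fun x => (-1) * g x) (Icc (-1) 1) := continuousOn_const.mul hg
  rw [h1, co_add k hf h2, co_smul]
  ring

/-- coefficients of the product of two Legendre polynomials -/
theorem co_PP (k a b : ℕ) : co k (fun x => (P a).eval x * (P b).eval x) = c a b k := by
  unfold co
  have h1 : ∀ x : ℝ, (P a).eval x * (P b).eval x * (P k).eval x =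
      ∑ L ∈ Finset.range (a + b + k + 1), c a b L * ((P L).eval x * (P k).eval x) := fun x => by
    rw [P_mul_eval a b (a + b + k + 1) (by omega) x, Finset.sum_mul]
    refine Finset.sum_congr rfl fun L _ => ?_
    ring
  simp only [h1]
  have h0 : ∀ L ∈ Finset.range (a + b + k + 1),
      IntervalIntegrable (fun x : ℝ => c a b L * ((P L).eval x * (P k).eval x)) volume (-1) 1 := fun L _ =>
    ii_of_cont (continuousOn_const.mul ((P_cont L).mul (P_cont k)))
  rw [intervalIntegral.integral_finsetSum h0]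
  have h2 : ∀ L ∈ Finset.range (a + b + k + 1),
      (∫ x in (-1 : ℝ)..1, c a b L * ((P L).eval x * (P k).eval x)) = if L = k then c a b k * (2 / (2 * (k : ℝ) + 1)) else 0 := by
    intro L _
    rw [intervalIntegral.integral_const_mul, H56.SF.integral_P_mul]
    split_ifs with h
    · rw [h]
    · rw [mul_zero]
  rw [Finset.sum_congr rfl h2, Finset.sum_ite_eq']
  rw [if_pos (Finset.mem_range.2 (by omega))]
  have : (2 * (k : ℝ) + 1) ≠ 0 := by positivity
  field_simp

/-- term by term integration -/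
theorem co_hasSum (k : ℕ) {a : ℕ → ℝ} (ha : Summable fun k => |a k|) {g : ℝ → ℝ}
    (hg : ContinuousOn g (Icc (-1) 1)) :
    HasSum (fun m => a m * co k (fun x => (P m).eval x * g x)) (co k (fun x => ev a x * g x)) := by
  obtain ⟨G, hG⟩ := isCompact_Icc.exists_bound_of_continuousOn hg
  have hs : HasSum (fun m => ∫ x in (-1 : ℝ)..1, (a m * (P m).eval x) * g x * (P k).eval x)
      (∫ x in (-1 : ℝ)..1, ev a x * g x * (P k).eval x) := by
    refine intervalIntegral.hasSum_integral_of_dominated_convergence (fun m _ => |a m| * G)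
      (fun m => ?_) (fun m => ?_) ?_ ?_ ?_
    · have : ContinuousOn (fun x => (a m * (P m).eval x) * g x * (P k).eval x) (Icc (-1) 1) :=
        ((continuousOn_const.mul (P_cont m)).mul hg).mul (P_cont k)
      have h2 := this.aestronglyMeasurable (μ := volume) measurableSet_Icc
      rw [uIoc_of_le (by norm_num : (-1 : ℝ) ≤ 1)]
      exact h2.mono_measure (Measure.restrict_mono Ioc_subset_Icc_self le_rfl)
    · refine Filter.Eventually.of_forall (fun x hx => ?_)
      rw [uIoc_of_le (by norm_num : (-1 : ℝ) ≤ 1)] at hx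
      have hx' := Ioc_subset_Icc_self hx
      have h1 := abs_le_one m (abs_le.2 hx')
      have h2 := abs_le_one k (abs_le.2 hx')
      have h3 := hG x hx'
      rw [Real.norm_eq_abs] at h3 ⊢
      have h0 : 0 ≤ G := (abs_nonneg _).trans h3
      rw [abs_mul, abs_mul, abs_mul]
      calc |a m| * |(P m).eval x| * |g x| * |(P k).eval x| ≤ |a m| * 1 * G * 1 := by gcongr
        _ = |a m| * G := by ring
    · exact Filter.Eventually.of_forall (fun x _ => ha.mul_right G)
    · exact intervalIntegrable_const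
    · refine Filter.Eventually.of_forall (fun x hx => ?_)
      rw [uIoc_of_le (by norm_num : (-1 : ℝ) ≤ 1)] at hx
      have hx' := Ioc_subset_Icc_self hx
      exact ((summ_ev ha (abs_le.2 hx')).hasSum.mul_right _).mul_right _
  have h2 := hs.mul_left ((2 * (k : ℝ) + 1) / 2)
  have e : (fun m => a m * co k (fun x => (P m).eval x * g x)) =
      fun m => (2 * (k : ℝ) + 1) / 2 * ∫ x in (-1 : ℝ)..1, (a m * (P m).eval x) * g x * (P k).eval x := by
    funext m
    unfold co
    have : (∫ x in (-1 : ℝ)..1, (a m * (P m).eval x) * g x * (P k).eval x) =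
        a m * ∫ x in (-1 : ℝ)..1, (P m).eval x * g x * (P k).eval x := by
      rw [← intervalIntegral.integral_const_mul]
      refine intervalIntegral.integral_congr fun x _ => ?_
      show a m * _ * _ * _ = _
      ring
    rw [this]
    ring
  rw [e]
  exact h2

theorem co_ev (k : ℕ) {a : ℕ → ℝ} (ha : Summable fun k => |a k|) : co k (ev a) = a k := by
  unfold co ev
  rw [H56.SF.integral_tsum_P ha k]
  have : (2 * (k : ℝ) + 1) ≠ 0 := by positivity
  field_simp

theorem co_P (k m : ℕ) : co k (fun x => (P m).eval x) = if m = k then 1 else 0 := by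
  unfold co
  rw [H56.SF.integral_P_mul]
  have : (2 * (k : ℝ) + 1) ≠ 0 := by positivity
  split_ifs with h
  · rw [h]
    field_simp
  · rw [mul_zero]

/-- the norm of a product over a finite set of modes -/
theorem sum_co_le (S : Finset ℕ) {a : ℕ → ℝ} (ha : Summable fun k => |a k|) {g : ℝ → ℝ}
    (hg : ContinuousOn g (Icc (-1) 1)) {B : ℝ}
    (hB : ∀ m, ∑ k ∈ S, |co k (fun x => (P m).eval x * g x)| ≤ B) :
    ∑ k ∈ S, |co k (fun x => ev a x * g x)| ≤ (∑' m, |a m|) * B := by
  have hone : ∀ k ∈ S, ∀ m, |co k (fun x => (P m).eval x * g x)| ≤ B := fun k hk m =>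
    (Finset.single_le_sum (f := fun k => |co k (fun x => (P m).eval x * g x)|)
      (fun _ _ => abs_nonneg _) hk).trans (hB m)
  have hsm : ∀ k ∈ S, Summable fun m => |a m| * |co k (fun x => (P m).eval x * g x)| := fun k hk =>
    Summable.of_nonneg_of_le (fun m => by positivity)
      (fun m => mul_le_mul_of_nonneg_left (hone k hk m) (abs_nonneg _)) (ha.mul_right B)
  have h1 : ∀ k ∈ S, |co k (fun x => ev a x * g x)| ≤ ∑' m, |a m| * |co k (fun x => (P m).eval x * g x)| := by
    intro k hk
    have h := (co_hasSum k ha hg).tsum_eq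
    rw [← h]
    have h2 : Summable fun m => ‖a m * co k (fun x => (P m).eval x * g x)‖ := by
      refine (hsm k hk).congr fun m => ?_
      rw [Real.norm_eq_abs, abs_mul]
    refine (norm_tsum_le_tsum_norm h2).trans (le_of_eq ?_)
    refine tsum_congr fun m => ?_
    rw [Real.norm_eq_abs, abs_mul]
  refine (Finset.sum_le_sum h1).trans ?_
  rw [← Summable.tsum_finsetSum hsm, ← tsum_mul_right]
  refine Summable.tsum_le_tsum (fun m => ?_) (summable_sum hsm) (ha.mul_right B)
  rw [← Finset.mul_sum]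
  exact mul_le_mul_of_nonneg_left (hB m) (abs_nonneg _)

theorem sum_c_le (S : Finset ℕ) (a b : ℕ) : ∑ k ∈ S, c a b k ≤ 1 := by
  obtain ⟨N, hN⟩ : ∃ N, S ⊆ Finset.range N ∧ a + b + 1 ≤ N := by
    refine ⟨S.sup id + a + b + 1, ?_, by omega⟩
    intro k hk
    have : k ≤ S.sup id := Finset.le_sup (f := id) hk
    exact Finset.mem_range.2 (by omega)
  rw [← c_sum a b N hN.2]
  exact Finset.sum_le_sum_of_subset_of_nonneg hN.1 fun k _ _ => c_nonneg _ _ _

theorem sum_co_P_ev (S : Finset ℕ) (b : ℕ) {a : ℕ → ℝ} (ha : Summable fun k => |a k|) :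
    ∑ k ∈ S, |co k (fun x => ev a x * (P b).eval x)| ≤ ∑' m, |a m| := by
  have h := sum_co_le S ha (P_cont b) (B := 1) fun m => by
    refine le_trans (le_of_eq ?_) (sum_c_le S m b)
    refine Finset.sum_congr rfl fun k _ => ?_
    rw [co_PP, abs_of_nonneg (c_nonneg _ _ _)]
  rwa [mul_one] at h

theorem sum_co_ev_ev (S : Finset ℕ) {a b : ℕ → ℝ} (ha : Summable fun k => |a k|) (hb : Summable fun k => |b k|) :
    ∑ k ∈ S, |co k (fun x => ev a x * ev b x)| ≤ (∑' m, |a m|) * ∑' m, |b m| := by
  refine sum_co_le S ha (ev_cont hb) fun m => ?_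
  refine le_trans (le_of_eq ?_) (sum_co_P_ev S m hb)
  refine Finset.sum_congr rfl fun k _ => ?_
  congr 1
  exact co_congr k fun x _ => mul_comm _ _

/-- `|co k f| ≤ 50 M` for `k ≤ 1210` -/
theorem co_bound (k : ℕ) (hk : k ≤ 1210) {f : ℝ → ℝ} {M : ℝ} (hf : ContinuousOn f (Icc (-1) 1))
    (h : ∀ x ∈ Icc (-1 : ℝ) 1, |f x| ≤ M) : |co k f| ≤ 50 * M := by
  have hM : 0 ≤ M := (abs_nonneg _).trans (h 0 (by constructor <;> norm_num))
  -- `|f P| ≤ M (1 + 49² P²) / (2 * 49)`
  have hPP := H56.SF.integral_P_mul k k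
  rw [if_pos rfl] at hPP
  have hi1 : IntervalIntegrable (fun x => f x * (P k).eval x) volume (-1) 1 := ii_of_cont (hf.mul (P_cont k))
  have hi2 : IntervalIntegrable (fun x => M * (1 / 98 + 49 / 2 * ((P k).eval x * (P k).eval x))) volume (-1) 1 :=
    ii_of_cont (continuousOn_const.mul (continuousOn_const.add (continuousOn_const.mul ((P_cont k).mul (P_cont k)))))
  have hpt : ∀ x ∈ Icc (-1 : ℝ) 1, |f x * (P k).eval x| ≤ M * (1 / 98 + 49 / 2 * ((P k).eval x * (P k).eval x)) := by
    intro x hx
    rw [abs_mul]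
    have h1 : |(P k).eval x| ≤ 1 / 98 + 49 / 2 * ((P k).eval x * (P k).eval x) := by
      have h2 : (P k).eval x * (P k).eval x = |(P k).eval x| * |(P k).eval x| := (abs_mul_abs_self _).symm
      rw [h2]
      nlinarith [sq_nonneg (49 * |(P k).eval x| - 1)]
    calc |f x| * |(P k).eval x| ≤ M * |(P k).eval x| := mul_le_mul_of_nonneg_right (h x hx) (abs_nonneg _)
      _ ≤ _ := mul_le_mul_of_nonneg_left h1 hM
  have hint : |∫ x in (-1 : ℝ)..1, f x * (P k).eval x| ≤ M * (1 / 49 + 49 / (2 * (k : ℝ) + 1)) := by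
    have h1 := intervalIntegral.abs_integral_le_integral_abs (a := (-1 : ℝ)) (b := 1) (μ := volume)
      (f := fun x => f x * (P k).eval x) (by norm_num)
    have h2 := intervalIntegral.integral_mono_on (by norm_num : (-1 : ℝ) ≤ 1) hi1.abs hi2 hpt
    refine (h1.trans h2).trans (le_of_eq ?_)
    have hi3 : IntervalIntegrable (fun x : ℝ => 49 / 2 * ((P k).eval x * (P k).eval x)) volume (-1) 1 :=
      ii_of_cont (continuousOn_const.mul ((P_cont k).mul (P_cont k)))
    rw [intervalIntegral.integral_const_mul, intervalIntegral.integral_add intervalIntegrable_const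
      hi3, intervalIntegral.integral_const_mul, hPP, intervalIntegral.integral_const]
    have : (2 * (k : ℝ) + 1) ≠ 0 := by positivity
    simp only [smul_eq_mul]
    field_simp
    ring
  unfold co
  rw [abs_mul, abs_of_nonneg (by positivity : (0 : ℝ) ≤ (2 * (k : ℝ) + 1) / 2)]
  have hk' : (k : ℝ) ≤ 1210 := by exact_mod_cast hk
  have hk0 : (0 : ℝ) ≤ k := Nat.cast_nonneg k
  calc (2 * (k : ℝ) + 1) / 2 * |∫ x in (-1 : ℝ)..1, f x * (P k).eval x|
      ≤ (2 * (k : ℝ) + 1) / 2 * (M * (1 / 49 + 49 / (2 * (k : ℝ) + 1))) := by gcongr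
    _ = M * ((2 * (k : ℝ) + 1) / 98 + 49 / 2) := by
        have : (2 * (k : ℝ) + 1) ≠ 0 := by positivity
        field_simp
        ring
    _ ≤ M * 50 := by
        refine mul_le_mul_of_nonneg_left ?_ hM
        linarith
    _ = 50 * M := mul_comm _ _

end Pool.Agent.H30.SB
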