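import Pool.Agent.H30.SB.Ph

/-!
# SB.Tay : the quadratic expansion of `Ph k` at `rho` with cubic remainder, `|h| ≤ 3 / 10^4`
-/

set_option autoImplicit false

namespace Pool.Agent.H30.SB

open Pool.Agent.H68.SC (jl djl jl_deriv jl_ode jl_smooth djl_smooth)
open SN (rho rho_gt rho_lt rho_pos)
open Set

/-- the width -/
noncomputable abbrev dl : ℝ := 3 / 10 ^ 4

theorem near_pos {t : ℝ} (ht : |t - rho| ≤ dl) : 1211 < t ∧ t < 1212 ∧ t ≤ (1 + 1 / 10 ^ 6) * rho := by
  have h1 := rho_gt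
  have h2 := rho_lt
  have h3 := abs_le.1 ht
  have h4 : (dl : ℝ) = 3 / 10 ^ 4 := rfl
  rw [h4] at h3
  norm_num at h3 ⊢
  refine ⟨by linarith [h3.1], by linarith [h3.2], by linarith [h3.2]⟩

/-- a priori bounds of `j_k`, `j_k'` near `rho` -/
theorem jbd (k : ℕ) (hk : k ≤ 1210) : ∀ t, |t - rho| ≤ dl →
    |djl k t| ≤ (1 + 1 / 10 ^ 6) * (|djl k rho| + dl * |jl k rho|) ∧
      |jl k t| ≤ |jl k rho| + dl * ((1 + 1 / 10 ^ 6) * (|djl k rho| + dl * |jl k rho|)) := by
  have hk2 : (k : ℝ) * (k + 1) ≤ 1465310 := by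
    have : (k : ℝ) ≤ 1210 := by exact_mod_cast hk
    nlinarith
  have hk0 : (0 : ℝ) ≤ (k : ℝ) * (k + 1) := by positivity
  have hd0 : (0 : ℝ) < dl := by norm_num [dl]
  set I : Set ℝ := Icc (rho - dl) (rho + dl) with hI
  have hmem : ∀ t, t ∈ I ↔ |t - rho| ≤ dl := by
    intro t
    rw [hI, mem_Icc, abs_le]
    constructor <;> rintro ⟨h1, h2⟩ <;> constructor <;> linarith
  have hIc : Convex ℝ I := convex_Icc _ _
  have hpos : ∀ t ∈ I, 0 < t := fun t ht => by
    have := near_pos ((hmem t).1 ht)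
    linarith [this.1]
  have hrho : rho ∈ I := by rw [hmem]; simp [hd0.le]
  have hcont : ContinuousOn (fun t => |djl k t|) I :=
    ((djl_smooth k).continuousOn.mono fun t ht => hpos t ht).abs
  obtain ⟨t0, ht0, hmax⟩ := isCompact_Icc.exists_isMaxOn ⟨rho, hrho⟩ hcont
  set L := |djl k t0| with hL
  have hLb : ∀ t ∈ I, |djl k t| ≤ L := fun t ht => hmax ht
  have hL0 : 0 ≤ L := abs_nonneg _
  -- values of `j`
  have hj : ∀ t ∈ I, |jl k t| ≤ |jl k rho| + dl * L := by
    intro t ht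
    have h := hIc.norm_image_sub_le_of_norm_hasDerivWithin_le (f := jl k) (f' := djl k) (C := L)
      (fun s hs => (jl_deriv k (hpos s hs)).hasDerivWithinAt) (fun s hs => hLb s hs) hrho ht
    rw [Real.norm_eq_abs, Real.norm_eq_abs] at h
    have h1 : |jl k t| ≤ |jl k rho| + |jl k t - jl k rho| := by
      have := abs_add_le (jl k rho) (jl k t - jl k rho)
      rwa [add_sub_cancel] at this
    have h2 : L * |t - rho| ≤ L * dl := mul_le_mul_of_nonneg_left ((hmem t).1 ht) hL0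
    linarith
  set A := |jl k rho| with hA
  have hA0 : 0 ≤ A := abs_nonneg _
  -- second derivative
  have hdd : ∀ t ∈ I, |((k : ℝ) * (k + 1) / t ^ 2 - 1) * jl k t - 2 / t * djl k t| ≤
      (A + dl * L) + 2 / 1211 * L := by
    intro t ht
    have hn := near_pos ((hmem t).1 ht)
    have ht0' := hpos t ht
    have e1 : |(k : ℝ) * (k + 1) / t ^ 2 - 1| ≤ 1 := by
      have : (k : ℝ) * (k + 1) / t ^ 2 ≤ 1 := by
        rw [div_le_one (by positivity)]
        nlinarith [hn.1]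
      have h0 : 0 ≤ (k : ℝ) * (k + 1) / t ^ 2 := by positivity
      rw [abs_le]
      constructor <;> linarith
    have e2 : |2 / t| ≤ 2 / 1211 := by
      rw [abs_of_pos (by positivity)]
      exact div_le_div_of_nonneg_left (by norm_num) (by norm_num) hn.1.le
    calc |((k : ℝ) * (k + 1) / t ^ 2 - 1) * jl k t - 2 / t * djl k t|
        ≤ |((k : ℝ) * (k + 1) / t ^ 2 - 1) * jl k t| + |2 / t * djl k t| := abs_sub _ _
      _ = |(k : ℝ) * (k + 1) / t ^ 2 - 1| * |jl k t| + |2 / t| * |djl k t| := by rw [abs_mul, abs_mul]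
      _ ≤ 1 * (A + dl * L) + 2 / 1211 * L := by
          gcongr
          · exact hj t ht
          · exact hLb t ht
      _ = _ := by ring
  have hL1 : L ≤ |djl k rho| + dl * ((A + dl * L) + 2 / 1211 * L) := by
    have h := hIc.norm_image_sub_le_of_norm_hasDerivWithin_le (f := djl k)
      (f' := fun t => ((k : ℝ) * (k + 1) / t ^ 2 - 1) * jl k t - 2 / t * djl k t)
      (C := (A + dl * L) + 2 / 1211 * L)
      (fun s hs => (djl_deriv' k (hpos s hs)).hasDerivWithinAt) (fun s hs => hdd s hs) hrho ht0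
    rw [Real.norm_eq_abs, Real.norm_eq_abs] at h
    have h1 : L ≤ |djl k rho| + |djl k t0 - djl k rho| := by
      have := abs_add_le (djl k rho) (djl k t0 - djl k rho)
      rwa [add_sub_cancel] at this
    have h2 : ((A + dl * L) + 2 / 1211 * L) * |t0 - rho| ≤ ((A + dl * L) + 2 / 1211 * L) * dl :=
      mul_le_mul_of_nonneg_left ((hmem t0).1 ht0) (by positivity)
    linarith
  have hL2 : L ≤ (1 + 1 / 10 ^ 6) * (|djl k rho| + dl * A) := by
    have hB0 : 0 ≤ |djl k rho| := abs_nonneg _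
    have h4 : (dl : ℝ) = 3 / 10 ^ 4 := rfl
    rw [h4] at hL1 ⊢
    norm_num at hL1 ⊢
    nlinarith
  intro t ht
  have ht' := (hmem t).2 ht
  refine ⟨(hLb t ht').trans hL2, (hj t ht').trans ?_⟩
  gcongr

/-- the expansion with a general remainder constant -/
theorem tay_gen (k : ℕ) (hk : k ≤ 1210) {m c : ℝ}
    (h1 : (1 + 1 / 10 ^ 6) ^ 2 * (|jl k rho| + dl * ((1 + 1 / 10 ^ 6) * (|djl k rho| + dl * |jl k rho|)) +
      2 / 1211 * ((1 + 1 / 10 ^ 6) * (|djl k rho| + dl * |jl k rho|))) ≤ 6 * c * m)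
    {h : ℝ} (hh : |h| ≤ dl) :
    |Ph k (rho + h) - (rho ^ 2 * jl k rho * h + (2 * rho * jl k rho + rho ^ 2 * djl k rho) * h ^ 2 / 2)| ≤
      rho ^ 2 * m * (c * |h| ^ 3) := by
  have hk2 : (k : ℝ) * (k + 1) ≤ 1465310 := by
    have : (k : ℝ) ≤ 1210 := by exact_mod_cast hk
    nlinarith
  have hk0 : (0 : ℝ) ≤ (k : ℝ) * (k + 1) := by positivity
  have hpos : ∀ t : ℝ, |t| ≤ dl → 0 < rho + t ∧ 1211 < rho + t := fun t ht => by
    have := near_pos (t := rho + t) (by simpa using ht)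
    exact ⟨by linarith [this.1], this.1⟩
  have hsh : ∀ t : ℝ, HasDerivAt (fun t : ℝ => rho + t) 1 t := fun t => by
    simpa using (hasDerivAt_id t).const_add rho
  have key := taylor2 (M := rho ^ 2 * (6 * c * m)) (a := dl)
    (F := fun h => Ph k (rho + h) - (rho ^ 2 * jl k rho * h + (2 * rho * jl k rho + rho ^ 2 * djl k rho) * h ^ 2 / 2))
    (F1 := fun h => (rho + h) ^ 2 * jl k (rho + h) - (rho ^ 2 * jl k rho + (2 * rho * jl k rho + rho ^ 2 * djl k rho) * h))
    (F2 := fun h => 2 * (rho + h) * jl k (rho + h) + (rho + h) ^ 2 * djl k (rho + h) - (2 * rho * jl k rho + rho ^ 2 * djl k rho))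
    (F3 := fun h => ((k : ℝ) * (k + 1) + 2 - (rho + h) ^ 2) * jl k (rho + h) + 2 * (rho + h) * djl k (rho + h))
    (by simp [Ph_rho]) (by simp) (by simp) ?_ ?_ ?_ ?_ h hh
  · refine key.trans (le_of_eq ?_)
    ring
  · intro t ht
    have e1 := (Ph_deriv k (hpos t ht).1).comp t (hsh t)
    have e2 : HasDerivAt (fun h : ℝ => rho ^ 2 * jl k rho * h + (2 * rho * jl k rho + rho ^ 2 * djl k rho) * h ^ 2 / 2)
        (rho ^ 2 * jl k rho + (2 * rho * jl k rho + rho ^ 2 * djl k rho) * t) t := by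
      have := ((hasDerivAt_id t).const_mul (rho ^ 2 * jl k rho)).add
        (((hasDerivAt_pow 2 t).const_mul (2 * rho * jl k rho + rho ^ 2 * djl k rho)).div_const 2)
      refine this.congr_deriv ?_
      simp only [Nat.cast_ofNat]
      ring
    refine (e1.sub e2).congr_deriv ?_
    ring
  · intro t ht
    have e0 : HasDerivAt (fun r : ℝ => r ^ 2 * jl k r) (2 * (rho + t) * jl k (rho + t) + (rho + t) ^ 2 * djl k (rho + t)) (rho + t) := by
      refine ((hasDerivAt_pow 2 (rho + t)).mul (jl_deriv k (hpos t ht).1)).congr_deriv ?_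
      simp only [Nat.cast_ofNat]
      ring
    have e1 := e0.comp t (hsh t)
    have e2 : HasDerivAt (fun h : ℝ => rho ^ 2 * jl k rho + (2 * rho * jl k rho + rho ^ 2 * djl k rho) * h)
        (2 * rho * jl k rho + rho ^ 2 * djl k rho) t := by
      have := ((hasDerivAt_id t).const_mul (2 * rho * jl k rho + rho ^ 2 * djl k rho)).const_add (rho ^ 2 * jl k rho)
      refine this.congr_deriv ?_
      ring
    refine (e1.sub e2).congr_deriv ?_
    ring
  · intro t ht
    have hp := (hpos t ht).1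
    have e0 : HasDerivAt (fun r : ℝ => 2 * r * jl k r + r ^ 2 * djl k r)
        (((k : ℝ) * (k + 1) + 2 - (rho + t) ^ 2) * jl k (rho + t) + 2 * (rho + t) * djl k (rho + t)) (rho + t) := by
      have a1 := ((hasDerivAt_id (rho + t)).const_mul 2).mul (jl_deriv k hp)
      refine (a1.add (jl_ode k hp)).congr_deriv ?_
      simp only [id]
      ring
    have e1 := e0.comp t (hsh t)
    refine (e1.sub_const _).congr_deriv ?_
    ring
  · intro t ht
    have hn := near_pos (t := rho + t) (by simpa using ht)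
    obtain ⟨b1, b2⟩ := jbd k hk (rho + t) (by simpa using ht)
    have hr := hpos t ht
    have hrho : 1211 < rho := by linarith [rho_gt]
    have c1 : |(k : ℝ) * (k + 1) + 2 - (rho + t) ^ 2| ≤ ((1 + 1 / 10 ^ 6) * rho) ^ 2 := by
      have : (rho + t) ^ 2 ≤ ((1 + 1 / 10 ^ 6) * rho) ^ 2 := pow_le_pow_left₀ hr.1.le hn.2.2 2
      have h3 : (1211 : ℝ) ^ 2 < (rho + t) ^ 2 := pow_lt_pow_left₀ hr.2 (by norm_num) (by norm_num)
      rw [abs_le]
      norm_num at h3
      constructor <;> nlinarith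
    have c2 : |2 * (rho + t)| ≤ ((1 + 1 / 10 ^ 6) * rho) ^ 2 * (2 / 1211) := by
      rw [abs_of_pos (by linarith [hr.1])]
      have h5 := hn.2.2
      have h6 : 0 < (1 + 1 / 10 ^ 6) * rho := by positivity
      have h7 : 1211 ≤ (1 + 1 / 10 ^ 6) * rho := by linarith [hr.2]
      have h8 : 2 * (rho + t) ≤ 2 * ((1 + 1 / 10 ^ 6) * rho) := by linarith
      refine h8.trans ?_
      nlinarith
    have hB0 : 0 ≤ |djl k rho| := abs_nonneg _
    have hA0 : 0 ≤ |jl k rho| := abs_nonneg _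
    have hd0 : (0 : ℝ) < dl := by norm_num [dl]
    calc |((k : ℝ) * (k + 1) + 2 - (rho + t) ^ 2) * jl k (rho + t) + 2 * (rho + t) * djl k (rho + t)|
        ≤ |(k : ℝ) * (k + 1) + 2 - (rho + t) ^ 2| * |jl k (rho + t)| + |2 * (rho + t)| * |djl k (rho + t)| := by
          refine (abs_add_le _ _).trans ?_
          rw [abs_mul, abs_mul (2 * (rho + t))]
      _ ≤ ((1 + 1 / 10 ^ 6) * rho) ^ 2 * (|jl k rho| + dl * ((1 + 1 / 10 ^ 6) * (|djl k rho| + dl * |jl k rho|))) +
          ((1 + 1 / 10 ^ 6) * rho) ^ 2 * (2 / 1211) * ((1 + 1 / 10 ^ 6) * (|djl k rho| + dl * |jl k rho|)) := by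
          gcongr
      _ = rho ^ 2 * ((1 + 1 / 10 ^ 6) ^ 2 * (|jl k rho| + dl * ((1 + 1 / 10 ^ 6) * (|djl k rho| + dl * |jl k rho|)) +
          2 / 1211 * ((1 + 1 / 10 ^ 6) * (|djl k rho| + dl * |jl k rho|)))) := by ring
      _ ≤ rho ^ 2 * (6 * c * m) := by
          gcongr

/-- all modes up to `1210` -/
theorem tay_low (k : ℕ) (hk : k ≤ 1210) (hj : jl k rho ≠ 0) (hK : |djl k rho| ≤ 612 * |jl k rho|)
    {h : ℝ} (hh : |h| ≤ 3 / 10 ^ 4) :
    |Ph k (rho + h) - rho ^ 2 * jl k rho * (h + (djl k rho / jl k rho / 2 + 1 / rho) * h ^ 2)| ≤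
      rho ^ 2 * |jl k rho| * (2 / 5 * |h| ^ 3) := by
  have key := tay_gen k hk (m := |jl k rho|) (c := 2 / 5) (by
    have hB0 : 0 ≤ |djl k rho| := abs_nonneg _
    have hA0 : 0 ≤ |jl k rho| := abs_nonneg _
    have h4 : (dl : ℝ) = 3 / 10 ^ 4 := rfl
    rw [h4]
    norm_num
    linarith) (h := h) hh
  have he : rho ^ 2 * jl k rho * (h + (djl k rho / jl k rho / 2 + 1 / rho) * h ^ 2) =
      rho ^ 2 * jl k rho * h + (2 * rho * jl k rho + rho ^ 2 * djl k rho) * h ^ 2 / 2 := by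
    have := rho_pos.ne'
    field_simp
    ring
  rw [he]
  exact key

/-- mode `478` -/
theorem tay_l (hj : djl 478 rho ≠ 0) (hD : |jl 478 rho| ≤ 1 / 10 ^ 7 * |djl 478 rho|)
    {h : ℝ} (hh : |h| ≤ 3 / 10 ^ 4) :
    |Ph 478 (rho + h) - rho ^ 2 * djl 478 rho * (jl 478 rho / djl 478 rho * h +
        (1 / 2 + jl 478 rho / djl 478 rho / rho) * h ^ 2)| ≤
      rho ^ 2 * |djl 478 rho| * (1 / 2500 * |h| ^ 3) := by
  have key := tay_gen 478 (by norm_num) (m := |djl 478 rho|) (c := 1 / 2500) (by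
    have hB0 : 0 ≤ |djl 478 rho| := abs_nonneg _
    have hA0 : 0 ≤ |jl 478 rho| := abs_nonneg _
    have h4 : (dl : ℝ) = 3 / 10 ^ 4 := rfl
    rw [h4]
    norm_num at hD ⊢
    linarith) (h := h) hh
  have he : rho ^ 2 * djl 478 rho * (jl 478 rho / djl 478 rho * h +
        (1 / 2 + jl 478 rho / djl 478 rho / rho) * h ^ 2) =
      rho ^ 2 * jl 478 rho * h + (2 * rho * jl 478 rho + rho ^ 2 * djl 478 rho) * h ^ 2 / 2 := by
    have := rho_pos.ne'
    field_simp
    ring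
  rw [he]
  exact key

end Pool.Agent.H30.SB
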